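import Mathlib
import Pool.Graph.R_seed8.TH796.AL.All
import Pool.Graph.R_seed8.Y724.Vj.Gcd2

/-!
# Germs of `S`-units and the character
-/

set_option autoImplicit false

namespace Pool.Agent.H556.CP

open Filter Topology Pool.Agent.TH932.Abs Pool.Agent.TH932.Germs Pool.Agent.TH932.Chi
open Pool.Agent.TH796.AL Pool.Agent.TH551.SU Pool.Agent.Y724.Vj

/-- `x` is a negligible multiple of the value of the character at `g` -/
def IsCh {s : ℕ} (B0 : Base s) {L : ℕ → ℝ} (hL : Tendsto L atTop atTop) (x : GG)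
    (g : Fin s → ℝ) : Prop :=
  ∃ κ : KK L hL, κ ≠ 0 ∧ x = (κ : GG) * ch B0 hL g

section
variable {s : ℕ} {B0 : Base s} {L : ℕ → ℝ} {hL : Tendsto L atTop atTop}

lemma IsCh.mul {x y : GG} {g h : Fin s → ℝ} (hx : IsCh B0 hL x g) (hy : IsCh B0 hL y h) :
    IsCh B0 hL (x * y) (g + h) := by
  obtain ⟨κ, h0, rfl⟩ := hx
  obtain ⟨κ', h0', rfl⟩ := hy
  refine ⟨κ * κ', mul_ne_zero h0 h0', ?_⟩
  rw [ch_add]
  push_cast
  ring

lemma IsCh.inv {x : GG} {g : Fin s → ℝ} (hx : IsCh B0 hL x g) :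
    IsCh B0 hL x⁻¹ (-g) := by
  obtain ⟨κ, h0, rfl⟩ := hx
  refine ⟨κ⁻¹, inv_ne_zero h0, ?_⟩
  rw [ch_neg, mul_inv]
  rfl

lemma IsCh.one : IsCh B0 hL 1 0 := ⟨1, one_ne_zero, by rw [ch_zero]; simp⟩

lemma IsCh.pow {x : GG} {g : Fin s → ℝ} (hx : IsCh B0 hL x g) (k : ℕ) :
    IsCh B0 hL (x ^ k) ((k : ℝ) • g) := by
  induction k with
  | zero =>
    have : (((0 : ℕ) : ℝ)) • g = 0 := by simp
    rw [this, pow_zero]
    exact IsCh.one
  | succ k ih =>
    have : (((k + 1 : ℕ) : ℝ)) • g = (k : ℝ) • g + g := by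
      push_cast
      rw [add_smul, one_smul]
    rw [this, pow_succ]
    exact ih.mul hx

lemma IsCh.zpow {x : GG} {g : Fin s → ℝ} (hx : IsCh B0 hL x g) (k : ℤ) :
    IsCh B0 hL (x ^ k) ((k : ℝ) • g) := by
  cases k with
  | ofNat k =>
    rw [Int.ofNat_eq_natCast, zpow_natCast, Int.cast_natCast]
    exact hx.pow k
  | negSucc k =>
    rw [zpow_negSucc]
    have : (((Int.negSucc k : ℤ) : ℝ)) • g = -(((k + 1 : ℕ) : ℝ) • g) := by
      rw [Int.cast_negSucc, neg_smul]
    rw [this]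
    exact (hx.pow (k + 1)).inv

lemma IsCh.mem {x : GG} {g : Fin s → ℝ} (hx : IsCh B0 hL x g) (v : Option (Fin s)) :
    x ∈ Sv B0 L v (lv B0 v g) := by
  obtain ⟨κ, h0, rfl⟩ := hx
  have := (filt_v (B := B0) hL v).mul_mem ((filt_v (B := B0) hL v).alg_mem κ) (ch_mem hL v g)
  rwa [zero_add] at this

lemma IsCh.sint {x : GG} {g : Fin s → ℝ} (hx : IsCh B0 hL x g) : Sint B0 L x := by
  obtain ⟨κ, h0, rfl⟩ := hx
  exact Sint.mul hL (Sint.alg hL κ) (ch_sint hL g)

lemma IsCh.const {κ : GG} (hκ : κ ∈ KK L hL) (h0 : κ ≠ 0) : IsCh B0 hL κ 0 := by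
  refine ⟨⟨κ, hκ⟩, fun h => h0 (congrArg Subtype.val h), ?_⟩
  rw [ch_zero, mul_one]

/-- powers of the prime `B0.P v` -/
lemma isCh_prime (v : Fin s) (f : ℕ → ℤ) (c : ℝ)
    (hf : ∀ ε : ℝ, 0 < ε → ∀ᶠ n in (UU : Filter ℕ), |(f n : ℝ) - c * L n| ≤ ε * L n) :
    IsCh B0 hL (gm fun n => (B0.P v : ℚ) ^ f n) (Pi.single v c) := by
  classical
  obtain ⟨κ, h0, h⟩ := exists_const (B := B0) hL (Pi.single v c)
    (fun n => Pi.single v (f n)) (by
      intro i ε hε
      by_cases hi : i = v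
      · subst hi
        simpa using hf ε hε
      · filter_upwards [L_nonneg hL] with n hn
        rw [Pi.single_eq_of_ne hi, Pi.single_eq_of_ne hi]
        simp only [Int.cast_zero, zero_mul, sub_zero, abs_zero]
        positivity)
  refine ⟨κ, h0, ?_⟩
  rw [← h]
  congr 1
  funext n
  rw [Finset.prod_eq_single v]
  · rw [Pi.single_eq_same]
  · intro i _ hi
    rw [Pi.single_eq_of_ne hi, zpow_zero]
  · intro h
    exact absurd (Finset.mem_univ _) h

end

/-- the base given by distinct primes -/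
def bs {s : ℕ} (b : Fin s → ℕ) (hb : ∀ v, (b v).Prime) (hbi : Function.Injective b) : Base s where
  P := b
  two := fun v => (hb v).two_le
  cop := fun i j h => by
    rw [Nat.isCoprime_iff_coprime]
    exact (Nat.coprime_primes (hb i) (hb j)).2 fun h' => h (hbi h')

/-- germs of `S`-units of bounded height are negligible multiples of values of the character -/
theorem isCh_su {s : ℕ} (b : Fin s → ℕ) (hb : ∀ v, (b v).Prime) (hbi : Function.Injective b)
    {L : ℕ → ℝ} (hL : Tendsto L atTop atTop) {a : ℕ → ℚ} (ha : ∀ n, IsSU b (a n))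
    (hB : Bd L (gm a)) : ∃ g : Fin s → ℝ, IsCh (bs b hb hbi) hL (gm a) g := by
  classical
  have hne : gm a ≠ 0 := gsu_ne_zero hb ⟨a, rfl, ha⟩
  have hlb : ∀ v, 0 < Real.log (b v) := fun v => Real.log_pos (by exact_mod_cast (hb v).one_lt)
  choose σ e hσ he using ha
  have hlog : ∀ n v, -Real.log (wv b hb (some v) (a n)) = (e n v : ℝ) * Real.log (b v) := by
    intro n v
    rw [he n, log_wv_some b hb hbi (hσ n) (e n) v, neg_neg]
  have hlim : ∀ v, ∃ t : ℝ, Tendsto (fun n => ((e n v : ℝ) * Real.log (b v)) / L n)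
      (UU : Filter ℕ) (𝓝 t) := by
    intro v
    obtain ⟨A, hA⟩ := wv_le_of_bd b hb (some v) hB hne
    obtain ⟨t, -, ht⟩ := exists_lim hL (fun n => (e n v : ℝ) * Real.log (b v)) A (by
      filter_upwards [hA] with n hn
      rwa [hlog] at hn)
    exact ⟨t, ht⟩
  choose t ht using hlim
  refine ⟨fun v => t v / Real.log (b v), ?_⟩
  obtain ⟨κ, h0, h⟩ := exists_const (B := bs b hb hbi) hL (fun v => t v / Real.log (b v)) e (by
    intro v ε hε
    have h1 := (ht v).eventually (Metric.ball_mem_nhds (t v)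
      (show 0 < ε * Real.log (b v) from mul_pos hε (hlb v)))
    filter_upwards [h1, ev_of_atTop (hL.eventually_gt_atTop 0)] with n h2 h3
    rw [Real.dist_eq] at h2
    have h4 : (e n v : ℝ) - t v / Real.log (b v) * L n =
        ((e n v : ℝ) * Real.log (b v) / L n - t v) * (L n / Real.log (b v)) := by
      have := (hlb v).ne'
      have := h3.ne'
      field_simp
    rw [h4, abs_mul, abs_of_pos (div_pos h3 (hlb v))]
    calc _ ≤ ε * Real.log (b v) * (L n / Real.log (b v)) :=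
          mul_le_mul_of_nonneg_right h2.le (div_pos h3 (hlb v)).le
      _ = ε * L n := by
          have := (hlb v).ne'
          field_simp)
  -- the sign
  have hsg : gm (fun n => ((σ n : ℤ) : ℚ)) ∈ KK L hL := by
    rcases (UU.eventually_or (p := fun n => σ n = 1) (q := fun n => σ n = -1)).1
      (Eventually.of_forall hσ) with h1 | h1
    · have : gm (fun n => ((σ n : ℤ) : ℚ)) = 1 := by
        rw [← gm_one, gm_eq]
        filter_upwards [h1] with n hn
        rw [hn]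
        simp
      rw [this]
      exact (KK L hL).one_mem
    · have : gm (fun n => ((σ n : ℤ) : ℚ)) = -1 := by
        have h2 : (-1 : GG) = gm (fun _ => (-1 : ℚ)) := rfl
        rw [h2, gm_eq]
        filter_upwards [h1] with n hn
        rw [hn]
        simp
      rw [this]
      exact (KK L hL).neg_mem (KK L hL).one_mem
  have hsg0 : (⟨_, hsg⟩ : KK L hL) ≠ 0 := by
    intro h1
    have h2 : gm (fun n => ((σ n : ℤ) : ℚ)) = 0 := congrArg Subtype.val h1
    rw [← gm_zero, gm_eq] at h2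
    obtain ⟨n, hn⟩ := h2.exists
    rcases hσ n with h3 | h3 <;> rw [h3] at hn <;> simp at hn
  refine ⟨⟨_, hsg⟩ * κ, mul_ne_zero hsg0 h0, ?_⟩
  have h1 : gm a = gm (fun n => ((σ n : ℤ) : ℚ)) * gm (fun n => ∏ i, ((bs b hb hbi).P i : ℚ) ^ (e n i)) := by
    rw [gm_mul]
    congr 1
    funext n
    exact he n
  rw [h1, h]
  push_cast
  ring

end Pool.Agent.H556.CP
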