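import Mathlib

/-!
# Two bases of a space of functions on the surface `T z z' = T + 1`
-/

set_option autoImplicit false

namespace Pool.Agent.H556.CP

variable {F A : Type*} [Field F] [CommRing A] [Algebra F A]

/-- the powers of `z` and `z'`, in one sequence -/
def yy (a : ℕ) (z z' : A) (j : ℕ) : A := if a ≤ j then z ^ (j - a) else z' ^ (a - j)

/-- the span of the products `T ^ ω' yy j` which come before `(ω, l)` -/
def Sp (F : Type*) {A : Type*} [Field F] [CommRing A] [Algebra F A] (a B : ℕ) (T z z' : A)
    (ω l : ℕ) : Submodule F A :=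
  Submodule.span F {x | ∃ ω' j : ℕ, j < a + B + 1 ∧ (ω' < ω ∨ (ω' = ω ∧ a - l ≤ j)) ∧
    x = T ^ ω' * yy a z z' j}

lemma Sp_mono {a B : ℕ} {T z z' : A} {ω l ω' l' : ℕ} (h : ω < ω' ∨ (ω = ω' ∧ l ≤ l')) :
    Sp F a B T z z' ω l ≤ Sp F a B T z z' ω' l' := by
  apply Submodule.span_mono
  rintro x ⟨w, j, hj, h1, rfl⟩
  exact ⟨w, j, hj, by omega, rfl⟩

lemma red {a B : ℕ} {T z z' : A} (h : T * z * z' = T + 1) (l : ℕ) :
    ∀ ω i : ℕ, l ≤ a → i ≤ B + l → l ≤ ω →
      T ^ ω * z ^ i * z' ^ l ∈ Sp F a B T z z' ω l := by
  induction l with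
  | zero =>
    intro ω i _ hi _
    rw [pow_zero, mul_one]
    refine Submodule.subset_span ⟨ω, a + i, by omega, Or.inr ⟨rfl, by omega⟩, ?_⟩
    unfold yy
    rw [if_pos (by omega), Nat.add_sub_cancel_left]
  | succ l ih =>
    intro ω i hl hi hω
    cases i with
    | zero =>
      rw [pow_zero, mul_one]
      refine Submodule.subset_span ⟨ω, a - (l + 1), by omega, Or.inr ⟨rfl, le_rfl⟩, ?_⟩
      unfold yy
      rw [if_neg (by omega)]
      congr 2
      omega
    | succ i =>
      obtain ⟨w, rfl⟩ : ∃ w, ω = w + 1 := ⟨ω - 1, by omega⟩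
      have h1 : T ^ (w + 1) * z ^ (i + 1) * z' ^ (l + 1) =
          T ^ (w + 1) * z ^ i * z' ^ l + T ^ w * z ^ i * z' ^ l := by
        have : T ^ (w + 1) * z ^ (i + 1) * z' ^ (l + 1) = T ^ w * z ^ i * z' ^ l * (T * z * z') := by
          ring
        rw [this, h]
        ring
      rw [h1]
      exact Submodule.add_mem _ (Sp_mono (Or.inr ⟨rfl, by omega⟩) (ih (w + 1) i (by omega)
        (by omega) (by omega))) (Sp_mono (Or.inl (by omega)) (ih w i (by omega) (by omega)
        (by omega)))

/-- the basis adapted to the point `z = α` -/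
def gg (a B : ℕ) (T z z' : A) (α : F) (ω k : ℕ) : A :=
  if ω < a then T ^ ω * yy a z z' k else T ^ ω * z' ^ (k - B) * (z - algebraMap F A α) ^ k

lemma gg_mem {a B : ℕ} {T z z' : A} (h : T * z * z' = T + 1) (α : F) {ω k : ℕ}
    (hk : k < a + B + 1) : gg a B T z z' α ω k ∈ Sp F a B T z z' ω a := by
  unfold gg
  split_ifs with hω
  · exact Submodule.subset_span ⟨ω, k, hk, Or.inr ⟨rfl, by omega⟩, rfl⟩
  · rw [sub_eq_add_neg, add_pow, Finset.mul_sum]
    refine Submodule.sum_mem _ fun i hi => ?_
    have hi' := Finset.mem_range.1 hi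
    have h1 : T ^ ω * z' ^ (k - B) * (z ^ i * (-algebraMap F A α) ^ (k - i) * (k.choose i : A)) =
        ((-α) ^ (k - i) * (k.choose i : F)) • (T ^ ω * z ^ i * z' ^ (k - B)) := by
      rw [Algebra.smul_def, map_mul, map_pow, map_neg, map_natCast]
      ring
    rw [h1]
    apply Submodule.smul_mem
    exact Sp_mono (Or.inr ⟨rfl, by omega⟩) (red h (k - B) ω i (by omega) (by omega) (by omega))

/-- the adapted basis spans -/
theorem span_le {a B : ℕ} {T z z' : A} (h : T * z * z' = T + 1) {α : F} (hα : α ≠ 0) (M : ℕ) :
    ∀ ω ≤ M, ∀ j < a + B + 1, T ^ ω * yy a z z' j ∈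
      Submodule.span F {x | ∃ ω' k : ℕ, ω' ≤ M ∧ k < a + B + 1 ∧ x = gg a B T z z' α ω' k} := by
  set W := Submodule.span F {x | ∃ ω' k : ℕ, ω' ≤ M ∧ k < a + B + 1 ∧ x = gg a B T z z' α ω' k}
    with hW
  intro ω
  induction ω using Nat.strong_induction_on with
  | _ ω ihω =>
    intro hM
    have hgW : ∀ k < a + B + 1, gg a B T z z' α ω k ∈ W := fun k hk =>
      Submodule.subset_span ⟨ω, k, hM, hk, rfl⟩
    rcases lt_or_ge ω a with hωa | hωa
    · intro j hj
      have h1 := hgW j hj
      unfold gg at h1
      rwa [if_pos hωa] at h1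
    · -- powers of `z`
      have hz : ∀ i ≤ B, T ^ ω * z ^ i ∈ W := by
        intro i hi
        have h1 : T ^ ω * z ^ i = ∑ k ∈ Finset.range (i + 1),
            (α ^ (i - k) * (i.choose k : F)) • (T ^ ω * (z - algebraMap F A α) ^ k) := by
          conv_lhs => rw [show z = (z - algebraMap F A α) + algebraMap F A α by ring, add_pow,
            Finset.mul_sum]
          refine Finset.sum_congr rfl fun k _ => ?_
          rw [Algebra.smul_def, map_mul, map_pow, map_natCast]
          ring
        rw [h1]
        refine Submodule.sum_mem _ fun k hk => Submodule.smul_mem _ _ ?_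
        have hk' := Finset.mem_range.1 hk
        have h2 := hgW k (by omega)
        unfold gg at h2
        rw [if_neg (by omega), show k - B = 0 by omega, pow_zero, mul_one] at h2
        exact h2
      have hSp : ∀ l ≤ a, Sp F a B T z z' ω l ≤ W := by
        intro l
        induction l with
        | zero =>
          intro _
          unfold Sp
          rw [Submodule.span_le]
          rintro x ⟨w, j, hj, h1, rfl⟩
          rcases h1 with h1 | ⟨rfl, h1⟩
          · exact ihω w h1 (by omega) j hj
          · unfold yy
            rw [if_pos (by omega)]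
            exact hz _ (by omega)
        | succ l ihl =>
          intro hl
          have ihl' := ihl (by omega)
          unfold Sp
          rw [Submodule.span_le]
          rintro x ⟨w, j, hj, h1, rfl⟩
          by_cases hold : w < ω ∨ (w = ω ∧ a - l ≤ j)
          · exact ihl' (Submodule.subset_span ⟨w, j, hj, hold, rfl⟩)
          · have hw : w = ω := by omega
            have hjl : j = a - (l + 1) := by omega
            subst hw
            subst hjl
            have hy : yy a z z' (a - (l + 1)) = z' ^ (l + 1) := by
              unfold yy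
              rw [if_neg (by omega)]
              congr 1
              omega
            rw [hy]
            -- the new element
            have h2 := hgW (B + (l + 1)) (by omega)
            unfold gg at h2
            rw [if_neg (by omega), show B + (l + 1) - B = l + 1 by omega, sub_eq_add_neg, add_pow,
              Finset.sum_range_succ', mul_add] at h2
            have h3 : T ^ w * z' ^ (l + 1) * ∑ k ∈ Finset.range (B + (l + 1)),
                z ^ (k + 1) * (-algebraMap F A α) ^ (B + (l + 1) - (k + 1)) *
                  ((B + (l + 1)).choose (k + 1) : A) ∈ W := by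
              rw [Finset.mul_sum]
              refine Submodule.sum_mem _ fun k hk => ?_
              have hk' := Finset.mem_range.1 hk
              have h4 : T ^ w * z' ^ (l + 1) * (z ^ (k + 1) *
                  (-algebraMap F A α) ^ (B + (l + 1) - (k + 1)) *
                  ((B + (l + 1)).choose (k + 1) : A)) =
                  ((-α) ^ (B + (l + 1) - (k + 1)) * ((B + (l + 1)).choose (k + 1) : F)) •
                    (T ^ w * z ^ (k + 1) * z' ^ (l + 1)) := by
                rw [Algebra.smul_def, map_mul, map_pow, map_neg, map_natCast]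
                ring
              rw [h4]
              apply Submodule.smul_mem
              obtain ⟨w', rfl⟩ : ∃ w', w = w' + 1 := ⟨w - 1, by omega⟩
              have h5 : T ^ (w' + 1) * z ^ (k + 1) * z' ^ (l + 1) =
                  T ^ (w' + 1) * z ^ k * z' ^ l + T ^ w' * z ^ k * z' ^ l := by
                have : T ^ (w' + 1) * z ^ (k + 1) * z' ^ (l + 1) =
                    T ^ w' * z ^ k * z' ^ l * (T * z * z') := by ring
                rw [this, h]
                ring
              rw [h5]
              refine Submodule.add_mem _ (ihl' (red h l (w' + 1) k (by omega) (by omega)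
                (by omega))) (ihl' (Sp_mono (Or.inl (by omega)) (red h l w' k (by omega) (by omega)
                (by omega))))
            have h6 := Submodule.sub_mem _ h2 h3
            rw [add_sub_cancel_left] at h6
            have h7 : T ^ w * z' ^ (l + 1) * (z ^ 0 * (-algebraMap F A α) ^ (B + (l + 1) - 0) *
                ((B + (l + 1)).choose 0 : A)) =
                ((-α) ^ (B + (l + 1))) • (T ^ w * z' ^ (l + 1)) := by
              rw [Algebra.smul_def, map_pow, map_neg, Nat.choose_zero_right, Nat.cast_one,
                Nat.sub_zero]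
              ring
            rw [h7] at h6
            have h8 := Submodule.smul_mem W ((-α) ^ (B + (l + 1)))⁻¹ h6
            rwa [smul_smul, inv_mul_cancel₀ (pow_ne_zero _ (neg_ne_zero.2 hα)), one_smul] at h8
      intro j hj
      exact hSp a le_rfl (Submodule.subset_span ⟨ω, j, hj, Or.inr ⟨rfl, by omega⟩, rfl⟩)

end Pool.Agent.H556.CP
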