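import Mathlib

/-!
# The sums of the exponents
-/

set_option autoImplicit false

namespace Pool.Agent.H556.CP

/-- the weights at the finite places -/
noncomputable def dd (a : ℕ) (y : ℝ) (j : ℕ) : ℝ :=
  if a ≤ j then -(((j - a : ℕ) : ℝ)) * y else ((a - j : ℕ) : ℝ) * (y - 1)

lemma sum_id (n : ℕ) : ∑ i ∈ Finset.range (n + 1), (i : ℝ) = n * (n + 1) / 2 := by
  induction n with
  | zero => simp
  | succ n ih => rw [Finset.sum_range_succ, ih]; push_cast; ring

lemma sum_dd (a B : ℕ) (y : ℝ) : ∑ j ∈ Finset.range (a + B + 1), dd a y j =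
    -((1 - y) * (a * (a + 1) / 2) + y * (B * (B + 1) / 2)) := by
  have h1 : a + B + 1 = a + (B + 1) := by ring
  rw [h1, Finset.sum_range_add]
  have h2 : ∑ j ∈ Finset.range a, dd a y j = -((1 - y) * (a * (a + 1) / 2)) := by
    have h3 : ∀ j ∈ Finset.range a, dd a y j = (y - 1) * (((a - 1 - j : ℕ) : ℝ) + 1) := by
      intro j hj
      have hj' := Finset.mem_range.1 hj
      unfold dd
      rw [if_neg (by omega)]
      have : a - j = (a - 1 - j) + 1 := by omega
      rw [this]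
      push_cast
      ring
    rw [Finset.sum_congr rfl h3, ← Finset.mul_sum,
      Finset.sum_range_reflect (fun j : ℕ => (j : ℝ) + 1) a, Finset.sum_add_distrib,
      Finset.sum_const, Finset.card_range, nsmul_eq_mul, mul_one]
    cases a with
    | zero => simp
    | succ a =>
      rw [sum_id]
      push_cast
      ring
  have h4 : ∑ x ∈ Finset.range (B + 1), dd a y (a + x) = -(y * (B * (B + 1) / 2)) := by
    have h5 : ∀ j ∈ Finset.range (B + 1), dd a y (a + j) = -y * (j : ℝ) := by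
      intro j _
      unfold dd
      rw [if_pos (by omega), Nat.add_sub_cancel_left]
      ring
    rw [Finset.sum_congr rfl h5, ← Finset.mul_sum, sum_id]
    ring
  rw [h2, h4]
  ring

lemma exists_ab {y κ : ℝ} (hy0 : 0 ≤ y) (hy1 : y ≤ 1) (hκ : y * (1 - y) < κ) :
    ∃ a B : ℕ, (1 - y) * (a * (a + 1) / 2) + y * (B * (B + 1) / 2) <
      κ * (((a + B : ℕ) : ℝ) * (((a + B : ℕ) : ℝ) + 1) / 2) := by
  have hd : 0 < κ - y * (1 - y) := by linarith
  have hκ0 : 0 < κ := lt_of_le_of_lt (mul_nonneg hy0 (by linarith)) hκ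
  obtain ⟨c, hc⟩ := exists_nat_gt ((3 * κ + 2) / (κ - y * (1 - y)) + 2)
  have hc1 : (3 * κ + 2) / (κ - y * (1 - y)) < c := by linarith
  have hc2 : (2 : ℝ) < c := by
    have : 0 < (3 * κ + 2) / (κ - y * (1 - y)) := by positivity
    linarith
  rw [div_lt_iff₀ hd] at hc1
  refine ⟨⌊y * c⌋₊, ⌊(1 - y) * c⌋₊, ?_⟩
  have h1y : 0 ≤ 1 - y := by linarith
  set A : ℝ := (⌊y * c⌋₊ : ℝ) with hA
  set B : ℝ := (⌊(1 - y) * c⌋₊ : ℝ) with hB
  have hA1 : A ≤ y * c := Nat.floor_le (by positivity)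
  have hB1 : B ≤ (1 - y) * c := Nat.floor_le (by positivity)
  have hA2 : y * c < A + 1 := Nat.lt_floor_add_one _
  have hB2 : (1 - y) * c < B + 1 := Nat.lt_floor_add_one _
  have hA0 : 0 ≤ A := Nat.cast_nonneg _
  have hB0 : 0 ≤ B := Nat.cast_nonneg _
  have e1 : (1 - y) * (A * (A + 1)) ≤ (1 - y) * ((y * c) * (y * c + 1)) := by
    apply mul_le_mul_of_nonneg_left _ h1y
    nlinarith
  have e2 : y * (B * (B + 1)) ≤ y * (((1 - y) * c) * ((1 - y) * c + 1)) := by
    apply mul_le_mul_of_nonneg_left _ hy0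
    nlinarith
  have hN : (c - 2 : ℝ) < A + B := by nlinarith
  have e3 : κ * ((c - 2) * (c - 1)) ≤ κ * ((A + B) * (A + B + 1)) := by
    apply mul_le_mul_of_nonneg_left _ hκ0.le
    nlinarith
  have hyy : y * (1 - y) ≤ 1 := by nlinarith
  have e4 : y * (1 - y) * (c * (c + 2)) < κ * ((c - 2) * (c - 1)) := by
    have h5 : (3 * κ + 2) * c < (κ - y * (1 - y)) * c * c := by
      have := mul_lt_mul_of_pos_right hc1 (show (0 : ℝ) < c by linarith)
      linarith
    have h6 : y * (1 - y) * (2 * c) ≤ 2 * c := by nlinarith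
    nlinarith
  have e5 : (1 - y) * ((y * c) * (y * c + 1)) + y * (((1 - y) * c) * ((1 - y) * c + 1)) =
      y * (1 - y) * (c * (c + 2)) := by ring
  push_cast
  linarith

lemma exists_M {D N κ : ℝ} (h : D < κ * N) (a : ℕ) :
    ∃ M : ℕ, a ≤ M ∧ ((M : ℝ) + 1) * D < ((M : ℝ) + 1 - a) * (κ * N) := by
  obtain ⟨M, hM⟩ := exists_nat_gt (a * (κ * N) / (κ * N - D))
  refine ⟨max M a, le_max_right _ _, ?_⟩
  have h1 : 0 < κ * N - D := by linarith
  rw [div_lt_iff₀ h1] at hM
  have h2 : (M : ℝ) ≤ (max M a : ℕ) := by exact_mod_cast le_max_left _ _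
  nlinarith

end Pool.Agent.H556.CP
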