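import Mathlib
import Pool.Agent.H556.RT.Trans
import Pool.Agent.H556.CP.Span
import Pool.Agent.H556.CP.Sum

/-!
# Approximation at one place on the surface `T z z' = T + 1`, transcendental case
-/

set_option autoImplicit false

namespace Pool.Agent.H556.CP

open Filter Topology Pool.Agent.TH932.Abs Pool.Agent.TH932.Germs Pool.Agent.TH932.Chi
open Pool.Agent.TH796.AL

/-- the value of a polynomial in two variables at two germs -/
noncomputable def evG (T z : GG) (R : Polynomial (Polynomial ℤ)) : GG :=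
  Polynomial.eval₂ (Polynomial.eval₂RingHom (Int.castRingHom GG) T) z R

/-- the products `T ^ ω yy j` are independent -/
lemma indep {T z z' : GG} (h : T * z * z' = T + 1)
    (hno : ∀ R : Polynomial (Polynomial ℤ), R ≠ 0 → evG T z R ≠ 0) (a B M : ℕ)
    (c : Fin (M + 1) × Fin (a + B + 1) → ℤ)
    (hc : ∑ x, (c x : GG) * (T ^ (x.1 : ℕ) * yy a z z' x.2) = 0) : ∀ x, c x = 0 := by
  classical
  set P : ℕ → Polynomial ℤ := fun j =>
    if a ≤ j then Polynomial.X ^ a else Polynomial.X ^ j * (Polynomial.X + 1) ^ (a - j) with hP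
  have hP0 : ∀ j, P j ≠ 0 := by
    intro j
    rw [hP]
    simp only []
    split_ifs
    · exact pow_ne_zero _ Polynomial.X_ne_zero
    · refine mul_ne_zero (pow_ne_zero _ Polynomial.X_ne_zero) (pow_ne_zero _ ?_)
      exact Polynomial.X_add_C_ne_zero 1
  set Q : Fin (a + B + 1) → Polynomial ℤ := fun j =>
    ∑ ω : Fin (M + 1), Polynomial.C (c (ω, j)) * Polynomial.X ^ (ω : ℕ) with hQ
  set R : Polynomial (Polynomial ℤ) :=
    ∑ j : Fin (a + B + 1), Polynomial.C (P j * Q j) * Polynomial.X ^ (j : ℕ) with hR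
  have hev : evG T z R = (T * z) ^ a * ∑ x, (c x : GG) * (T ^ (x.1 : ℕ) * yy a z z' x.2) := by
    rw [hR, evG, Polynomial.eval₂_finsetSum, Fintype.sum_prod_type, Finset.sum_comm,
      Finset.mul_sum]
    refine Finset.sum_congr rfl fun j _ => ?_
    rw [Polynomial.eval₂_mul, Polynomial.eval₂_C, Polynomial.eval₂_pow, Polynomial.eval₂_X,
      Polynomial.coe_eval₂RingHom, Polynomial.eval₂_mul, hQ, Polynomial.eval₂_finsetSum]
    have h1 : Polynomial.eval₂ (Int.castRingHom GG) T (P j) * z ^ (j : ℕ) =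
        (T * z) ^ a * yy a z z' j := by
      rw [hP]
      simp only []
      unfold yy
      split_ifs with hj
      · rw [Polynomial.eval₂_pow, Polynomial.eval₂_X, mul_pow, mul_assoc, ← pow_add]
        congr 2
        omega
      · rw [Polynomial.eval₂_mul, Polynomial.eval₂_pow, Polynomial.eval₂_X, Polynomial.eval₂_pow,
          Polynomial.eval₂_add, Polynomial.eval₂_X, Polynomial.eval₂_one, ← h]
        obtain ⟨w, hw⟩ : ∃ w, a = (j : ℕ) + w := Nat.exists_eq_add_of_le (by omega)
        rw [show a - (j : ℕ) = w by omega]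
        conv_rhs => rw [hw]
        ring
    rw [mul_right_comm, h1, Finset.mul_sum, Finset.mul_sum]
    refine Finset.sum_congr rfl fun ω _ => ?_
    rw [Polynomial.eval₂_mul, Polynomial.eval₂_C, Polynomial.eval₂_pow, Polynomial.eval₂_X,
      eq_intCast]
    ring
  rw [hc, mul_zero] at hev
  have hR0 : R = 0 := by
    by_contra h0
    exact hno R h0 hev
  rintro ⟨ω0, j0⟩
  have h1 := congrArg (fun r => Polynomial.coeff r (j0 : ℕ)) hR0
  simp only [hR, Polynomial.finsetSum_coeff, Polynomial.coeff_C_mul_X_pow,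
    Polynomial.coeff_zero] at h1
  rw [Finset.sum_eq_single j0 (fun j _ hj => by
    rw [if_neg]
    intro h2
    exact hj (Fin.ext h2.symm)) (fun h2 => absurd (Finset.mem_univ _) h2), if_pos rfl] at h1
  have h2 := (mul_eq_zero.1 h1).resolve_left (hP0 _)
  have h3 := congrArg (fun r => Polynomial.coeff r (ω0 : ℕ)) h2
  simp only [hQ, Polynomial.finsetSum_coeff, Polynomial.coeff_C_mul_X_pow,
    Polynomial.coeff_zero] at h3
  rw [Finset.sum_eq_single ω0 (fun j _ hj => by
    rw [if_neg]
    intro h2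
    exact hj (Fin.ext h2.symm)) (fun h2 => absurd (Finset.mem_univ _) h2), if_pos rfl] at h3
  exact h3

/-- **the transcendental case** -/
theorem trans {s : ℕ} (B0 : Base s) {L : ℕ → ℝ} (hL : Tendsto L atTop atTop) {T z z' : GG}
    (h : T * z * z' = T + 1) (τ ν : Fin s → ℝ) (hτ : ∑ v, τ v = 1)
    (hT : ∀ v, T ∈ Sv B0 L (some v) (τ v)) (hz : ∀ v, z ∈ Sv B0 L (some v) (-ν v))
    (hz' : ∀ v, z' ∈ Sv B0 L (some v) (ν v - τ v)) (hTi : rho T ∈ SR L (-1))
    (hzi : rho z ∈ SR L 0) (hzi' : rho z' ∈ SR L 0) (hTs : Sint B0 L T) (hzs : Sint B0 L z)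
    (hzs' : Sint B0 L z') {y : ℝ} (hy : ∑ v, ν v = y) (hy0 : 0 ≤ y) (hy1 : y ≤ 1) {α : ℝ}
    (hα : IsAlgebraic ℚ α) (hα0 : α ≠ 0) {κ : ℝ} (hκ : y * (1 - y) < κ)
    (hclose : rho z - algebraMap ℝ HR α ∈ SR L κ)
    (hno : ∀ R : Polynomial (Polynomial ℤ), R ≠ 0 → evG T z R ≠ 0) : False := by
  classical
  -- the number field
  set F : IntermediateField ℚ ℝ := IntermediateField.adjoin ℚ {α} with hF
  have hfin : FiniteDimensional ℚ F := IntermediateField.adjoin.finiteDimensional hα.isIntegral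
  have hαF : α ∈ F := IntermediateField.mem_adjoin_simple_self ℚ α
  set α' : F := ⟨α, hαF⟩ with hα'
  have hα'0 : α' ≠ 0 := fun h0 => hα0 (congrArg Subtype.val h0)
  have hone : (1 : HR) ∈ SR L 0 := by
    have := SR_cst hL (1 : ℝ)
    rwa [map_one] at this
  have hpow : ∀ {x : HR} {w : ℝ}, x ∈ SR L w → ∀ k : ℕ, x ^ k ∈ SR L (w * k) := by
    intro x w hx k
    induction k with
    | zero => rw [pow_zero, Nat.cast_zero, mul_zero]; exact hone
    | succ k ih =>
      rw [pow_succ]
      push_cast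
      rw [mul_add, mul_one]
      exact SR_mul hL ih hx
  have hpowS : ∀ {x : GG}, Sint B0 L x → ∀ k : ℕ, Sint B0 L (x ^ k) := by
    intro x hx k
    induction k with
    | zero => rw [pow_zero]; exact Sint.alg hL 1
    | succ k ih => rw [pow_succ]; exact Sint.mul hL ih hx
  have hhr : rho T * rho z * rho z' = rho T + 1 := by
    rw [← map_mul, ← map_mul, h, map_add, map_one]
  -- the parameters
  obtain ⟨a, B, hab⟩ := exists_ab hy0 hy1 hκ
  obtain ⟨M, haM, hM⟩ := exists_M hab a
  set ι := Fin (M + 1) × Fin (a + B + 1) with hι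
  set E : ι ≃ Fin (Fintype.card ι) := Fintype.equivFin ι with hE
  set xx : ι → GG := fun x => T ^ (x.1 : ℕ) * yy a z z' x.2 with hxx
  set gx : ι → HR := fun x => gg a B (rho T) (rho z) (rho z') α' x.1 x.2 with hgx
  have hindZ := indep h hno a B M
  have hindF : LinearIndependent F (fun x : ι => rho (xx x)) := RT.indep_rho F xx hindZ
  have hmap : ∀ x : ι, rho (xx x) = rho T ^ (x.1 : ℕ) * yy a (rho z) (rho z') x.2 := by
    intro x
    rw [hxx]
    simp only []
    rw [map_mul, map_pow]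
    unfold yy
    split_ifs
    · rw [map_pow]
    · rw [map_pow]
  have hspan1 : ∀ x : ι, gx x ∈ Submodule.span F (Set.range fun x : ι => rho (xx x)) := by
    intro x
    have h1 := gg_mem hhr α' (a := a) (B := B) (ω := x.1) (k := x.2) x.2.2
    refine Submodule.span_mono ?_ h1
    rintro _ ⟨w, j, hj, h2, rfl⟩
    have hw : w < M + 1 := by have := x.1.2; omega
    exact ⟨(⟨w, hw⟩, ⟨j, hj⟩), hmap _⟩
  have hspan2 : ∀ x : ι, rho (xx x) ∈ Submodule.span F (Set.range gx) := by
    intro x
    rw [hmap]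
    have h1 := span_le hhr hα'0 M x.1 (by have := x.1.2; omega) x.2 x.2.2
    refine Submodule.span_mono ?_ h1
    rintro _ ⟨w, k, hw, hk, rfl⟩
    exact ⟨(⟨w, by omega⟩, ⟨k, hk⟩), rfl⟩
  have hspan : Submodule.span F (Set.range gx) =
      Submodule.span F (Set.range fun x : ι => rho (xx x)) := by
    apply le_antisymm
    · rw [Submodule.span_le]
      rintro _ ⟨x, rfl⟩
      exact hspan1 x
    · rw [Submodule.span_le]
      rintro _ ⟨x, rfl⟩
      exact hspan2 x
  have hindg : LinearIndependent F gx := by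
    rw [linearIndependent_iff_card_eq_finrank_span] at hindF ⊢
    rw [hindF]
    unfold Set.finrank
    rw [hspan]
  have key := fixa_thm s B0 L hL F hfin (Fintype.card ι)
    (fun i => xx (E.symm i)) (fun i => gx (E.symm i))
    (fun v i => ((E.symm i).1 : ℕ) * τ v + if a ≤ ((E.symm i).2 : ℕ) then
      -((((E.symm i).2 : ℕ) - a : ℕ) : ℝ) * ν v else
      ((a - ((E.symm i).2 : ℕ) : ℕ) : ℝ) * (ν v - τ v))
    (fun i => -(((E.symm i).1 : ℕ) : ℝ) + if ((E.symm i).1 : ℕ) < a then 0 else
      κ * ((E.symm i).2 : ℕ))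
    (by
      intro f hf i
      have h1 := hindZ (fun x => f (E x)) (by
        rw [← E.symm.sum_comp]
        simpa using hf) (E.symm i)
      simpa using h1)
    (hindg.comp E.symm E.symm.injective)
    (by
      intro i
      refine Submodule.span_mono ?_ (hspan1 (E.symm i))
      rintro _ ⟨x, rfl⟩
      refine ⟨E x, ?_⟩
      simp only [Equiv.symm_apply_apply])
    (by
      intro v i
      have hF2 := filt_v (B := B0) hL (some v)
      obtain ⟨ω, j⟩ := E.symm i
      rw [hxx]
      simp only []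
      have h1 : T ^ (ω : ℕ) ∈ Sv B0 L (some v) ((ω : ℕ) * τ v) := by
        rw [mul_comm]
        exact hF2.pow_mem (hT v) _
      refine hF2.mul_mem h1 ?_
      unfold yy
      split_ifs with hj
      · have h2 := hF2.pow_mem (hz v) ((j : ℕ) - a)
        have h3 : -ν v * (((j : ℕ) - a : ℕ) : ℝ) = -(((j : ℕ) - a : ℕ) : ℝ) * ν v := by ring
        rw [h3] at h2
        exact h2
      · rw [mul_comm]
        exact hF2.pow_mem (hz' v) _)
    (by
      intro i
      obtain ⟨ω, k⟩ := E.symm i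
      rw [hgx]
      simp only []
      unfold gg
      have h1 : rho T ^ (ω : ℕ) ∈ SR L (-((ω : ℕ) : ℝ)) := by
        have := hpow hTi (ω : ℕ)
        rwa [neg_one_mul] at this
      split_ifs with hω
      · refine SR_mul hL h1 ?_
        unfold yy
        split_ifs
        · have := hpow hzi ((k : ℕ) - a)
          rwa [zero_mul] at this
        · have := hpow hzi' (a - (k : ℕ))
          rwa [zero_mul] at this
      · have h2 : rho z' ^ ((k : ℕ) - B) ∈ SR L 0 := by
          have := hpow hzi' ((k : ℕ) - B)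
          rwa [zero_mul] at this
        have h3 := SR_mul hL (SR_mul hL h1 h2) (hpow hclose (k : ℕ))
        rw [add_zero] at h3
        exact h3)
    (by
      intro i
      rw [hxx]
      refine Sint.mul hL (hpowS hTs _) ?_
      unfold yy
      split_ifs
      · exact hpowS hzs _
      · exact hpowS hzs' _)
  -- the sums
  rw [Finset.sum_comm, ← Finset.sum_add_distrib] at key
  have h1 : ∀ i : Fin (Fintype.card ι),
      (∑ v, (((E.symm i).1 : ℕ) * τ v + if a ≤ ((E.symm i).2 : ℕ) then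
        -((((E.symm i).2 : ℕ) - a : ℕ) : ℝ) * ν v else
        ((a - ((E.symm i).2 : ℕ) : ℕ) : ℝ) * (ν v - τ v))) +
        (-(((E.symm i).1 : ℕ) : ℝ) + if ((E.symm i).1 : ℕ) < a then 0 else
          κ * ((E.symm i).2 : ℕ)) =
      (fun x : ι => dd a y x.2 + if (x.1 : ℕ) < a then 0 else κ * (x.2 : ℕ)) (E.symm i) := by
    intro i
    obtain ⟨ω, j⟩ := E.symm i
    simp only []
    rw [Finset.sum_add_distrib, ← Finset.mul_sum, hτ, mul_one]
    unfold dd
    split_ifs with hj hω hω
    · rw [← Finset.mul_sum, hy]; ring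
    · rw [← Finset.mul_sum, hy]; ring
    · rw [← Finset.mul_sum, Finset.sum_sub_distrib, hy, hτ]; ring
    · rw [← Finset.mul_sum, Finset.sum_sub_distrib, hy, hτ]; ring
  rw [Finset.sum_congr rfl fun i _ => h1 i, E.symm.sum_comp (fun x : ι => dd a y x.2 +
    if (x.1 : ℕ) < a then 0 else κ * (x.2 : ℕ)), Finset.sum_add_distrib,
    Fintype.sum_prod_type, Fintype.sum_prod_type] at key
  have h2 : ∑ ω : Fin (M + 1), ∑ j : Fin (a + B + 1), dd a y ((ω, j) : ι).2 =
      ((M : ℝ) + 1) * -((1 - y) * (a * (a + 1) / 2) + y * (B * (B + 1) / 2)) := by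
    simp only []
    rw [Finset.sum_const, Finset.card_univ, Fintype.card_fin, nsmul_eq_mul,
      Fin.sum_univ_eq_sum_range (fun j => dd a y j), sum_dd]
    push_cast
    ring
  have h3 : ∑ ω : Fin (M + 1), ∑ j : Fin (a + B + 1),
      (if ((((ω, j) : ι).1 : Fin (M + 1)) : ℕ) < a then (0 : ℝ) else κ * ((((ω, j) : ι).2 : Fin (a + B + 1)) : ℕ)) =
      ((M : ℝ) + 1 - a) * (κ * (((a + B : ℕ) : ℝ) * (((a + B : ℕ) : ℝ) + 1) / 2)) := by
    simp only []
    have h4 : ∀ ω : Fin (M + 1), ∑ j : Fin (a + B + 1),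
        (if (ω : ℕ) < a then (0 : ℝ) else κ * (j : ℕ)) =
        if (ω : ℕ) < a then 0 else κ * (((a + B : ℕ) : ℝ) * (((a + B : ℕ) : ℝ) + 1) / 2) := by
      intro ω
      split_ifs
      · simp
      · rw [← Finset.mul_sum, Fin.sum_univ_eq_sum_range (fun j : ℕ => (j : ℝ)), sum_id]
    rw [Finset.sum_congr rfl fun ω _ => h4 ω, Fin.sum_univ_eq_sum_range (fun ω : ℕ =>
      if ω < a then (0 : ℝ) else κ * (((a + B : ℕ) : ℝ) * (((a + B : ℕ) : ℝ) + 1) / 2))]
    obtain ⟨d, rfl⟩ := Nat.exists_eq_add_of_le haM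
    rw [show a + d + 1 = a + (d + 1) by ring, Finset.sum_range_add,
      Finset.sum_eq_zero (fun ω hω => by rw [if_pos (Finset.mem_range.1 hω)]), zero_add,
      Finset.sum_congr rfl (fun ω _ => by rw [if_neg (by omega)]), Finset.sum_const,
      Finset.card_range, nsmul_eq_mul]
    push_cast
    ring
  rw [h2, h3] at key
  linarith

end Pool.Agent.H556.CP
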