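import Mathlib
import Pool.Agent.H556.RT.Alg
import Pool.Agent.H556.CP.Trans
import Pool.Agent.H556.CP.Ch

/-!
# The algebraic case
-/

set_option autoImplicit false

namespace Pool.Agent.H556.CP

open Filter Topology Pool.Agent.TH932.Abs Pool.Agent.TH932.Germs Pool.Agent.TH932.Chi
open Pool.Agent.TH796.AL

/-- **integers well approximated by combinations of units with algebraic coefficients** -/
theorem comb {s : ℕ} (B0 : Base s) {L : ℕ → ℝ} (hL : Tendsto L atTop atTop) (A : GG)
    (hA : ∀ v, A ∈ Sv B0 L (some v) 0) (hAs : Sint B0 L A) (M : ℕ) (u : Fin M → GG)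
    (g : Fin M → Fin s → ℝ) (hu : ∀ i, IsCh B0 hL (u i) (g i)) (γ : Fin M → ℝ)
    (hγ : ∀ i, IsAlgebraic ℚ (γ i)) {η : ℝ} (hη : 0 < η)
    (happ : rho A - ∑ i, algebraMap ℝ HR (γ i) * rho (u i) ∈ SR L η) :
    ∃ (N : ℤ) (c : Fin M → ℤ), (N ≠ 0 ∨ c ≠ 0) ∧ (N : GG) * A = ∑ i, (c i : GG) * u i := by
  classical
  by_contra hcon
  push Not at hcon
  set x : Fin (M + 1) → GG := Fin.cons A u with hx
  -- independence
  have hind : ∀ c : Fin (M + 1) → ℤ, ∑ i, (c i : GG) * x i = 0 → ∀ i, c i = 0 := by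
    intro c hc
    by_contra h0
    push Not at h0
    apply hcon (c 0) (fun i => -c i.succ)
    · by_contra h2
      push Not at h2
      obtain ⟨h3, h4⟩ := h2
      obtain ⟨i, hi⟩ := h0
      apply hi
      induction i using Fin.cases with
      | zero => exact h3
      | succ i =>
        have := congrFun h4 i
        simpa using this
    · rw [Fin.sum_univ_succ] at hc
      simp only [hx, Fin.cons_zero, Fin.cons_succ] at hc
      rw [eq_neg_of_add_eq_zero_left hc, ← Finset.sum_neg_distrib]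
      refine Finset.sum_congr rfl fun i _ => ?_
      push_cast
      ring
  -- the number field
  set F : IntermediateField ℚ ℝ := IntermediateField.adjoin ℚ (Set.range γ) with hF
  have hfin : FiniteDimensional ℚ F := by
    apply IntermediateField.finiteDimensional_adjoin
    rintro _ ⟨l, rfl⟩
    exact (hγ l).isIntegral
  have hγF : ∀ l, γ l ∈ F := fun l => IntermediateField.subset_adjoin ℚ _ ⟨l, rfl⟩
  have hindF := RT.indep_rho F x hind
  have hrx : (fun i => rho (x i)) = (Fin.cons (rho A) (fun i => rho (u i)) : Fin (M + 1) → HR) := by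
    funext i
    induction i using Fin.cases with
    | zero => rfl
    | succ i => rfl
  rw [hrx, linearIndependent_finCons] at hindF
  set S : HR := ∑ i, (⟨γ i, hγF i⟩ : F) • rho (u i) with hs
  have hSe : S = ∑ i, algebraMap ℝ HR (γ i) * rho (u i) := rfl
  have hsmem : S ∈ Submodule.span F (Set.range fun i => rho (u i)) :=
    Submodule.sum_mem _ fun i _ => Submodule.smul_mem _ _ (Submodule.subset_span ⟨i, rfl⟩)
  have hindz : LinearIndependent F (Fin.cons (rho A - S) (fun i => rho (u i)) : Fin (M + 1) → HR) := by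
    rw [linearIndependent_finCons]
    refine ⟨hindF.1, fun h => hindF.2 ?_⟩
    have := Submodule.add_mem _ h hsmem
    rwa [sub_add_cancel] at this
  rw [← hSe] at happ
  have key := fixa_thm s B0 L hL F hfin (M + 1) x
    (Fin.cons (rho A - S) (fun i => rho (u i)))
    (fun v => Fin.cons 0 (fun i => lv B0 (some v) (g i))) (Fin.cons η (fun i => lv B0 none (g i)))
    hind hindz
    (by
      intro i
      have h1 : Set.range (fun i => rho (u i)) ⊆ Set.range fun j => rho (x j) := by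
        rintro _ ⟨i, rfl⟩
        exact ⟨i.succ, rfl⟩
      induction i using Fin.cases with
      | zero =>
        rw [Fin.cons_zero]
        exact Submodule.sub_mem _ (Submodule.subset_span ⟨0, rfl⟩) (Submodule.span_mono h1 hsmem)
      | succ i =>
        rw [Fin.cons_succ]
        exact Submodule.subset_span ⟨i.succ, rfl⟩)
    (by
      intro v i
      induction i using Fin.cases with
      | zero => exact hA v
      | succ i => exact (hu i).mem (some v))
    (by
      intro i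
      induction i using Fin.cases with
      | zero => exact happ
      | succ i => exact SR_rho ((hu i).mem none))
    (by
      intro i
      induction i using Fin.cases with
      | zero => exact hAs
      | succ i => exact (hu i).sint)
  rw [Finset.sum_comm, ← Finset.sum_add_distrib, Fin.sum_univ_succ] at key
  simp only [Fin.cons_zero, Fin.cons_succ, Finset.sum_const_zero, zero_add] at key
  have h1 : ∀ i, ∑ v, lv B0 (some v) (g i) + lv B0 none (g i) = 0 := by
    intro i
    have := lv_sum (B := B0) (g i)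
    rw [Fintype.sum_option] at this
    linarith
  rw [Finset.sum_congr rfl fun i _ => h1 i, Finset.sum_const_zero] at key
  linarith

open Pool.Agent.Q270.PX Asymptotics in
/-- **expansions of algebraic functions of `T = 2 ^ e`** -/
theorem expand {e : ℕ → ℕ} (he : Tendsto e atTop atTop) (z : ℕ → ℚ)
    (R : Polynomial (Polynomial ℤ)) (hR : R ≠ 0)
    (hRn : ∀ᶠ n in (UU : Filter ℕ), (R.map (Polynomial.mapRingHom (Int.castRingHom ℚ))).evalEval
      (2 ^ e n) (z n) = 0) (J : ℕ) :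
    ∃ (q : ℕ) (ρ : ℕ) (M : ℕ) (k : Fin M → ℤ) (γ : Fin M → ℝ), 1 ≤ q ∧ Function.Injective k ∧
      (∀ i, IsAlgebraic ℚ (γ i)) ∧ (∀ᶠ n in (UU : Filter ℕ), e n % q = ρ) ∧
      ∀ᶠ n in (UU : Filter ℕ), |(z n : ℝ) - ∑ i, γ i * (2 : ℝ) ^ (k i * ((e n / q : ℕ) : ℤ))| ≤
        Real.exp (-J * RT.LT e n) := by
  classical
  -- real polynomial
  set P : Polynomial (Polynomial ℝ) := R.map (Polynomial.mapRingHom (Int.castRingHom ℝ)) with hP
  have hP0 : P ≠ 0 := by
    rw [hP, Polynomial.map_ne_zero_iff]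
    · exact hR
    · exact Polynomial.map_injective _ Int.cast_injective
  have hPK : ∀ i j, (P.coeff i).coeff j ∈ RA := by
    intro i j
    rw [hP, Polynomial.coeff_map, Polynomial.coe_mapRingHom, Polynomial.coeff_map]
    exact intCast_mem _ _
  obtain ⟨D, q, hq, S, hSfin, hSan, hev⟩ := puiseux RA_closed P hP0 hPK
  have hq0 : (0 : ℝ) < q := by exact_mod_cast hq
  have htt : Tendsto (fun n => (2 : ℝ) ^ e n) atTop atTop :=
    (tendsto_pow_atTop_atTop_of_one_lt (by norm_num)).comp he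
  have h1 : ∀ᶠ n in (UU : Filter ℕ), ∃ G ∈ S, (z n : ℝ) = ((2 : ℝ) ^ e n) ^ D *
      G (rt q ((2 : ℝ) ^ e n)) := by
    filter_upwards [ev_of_atTop (htt.eventually hev), hRn] with n h2 h3
    rw [← h2 (z n)]
    have h4 := Polynomial.map_mapRingHom_evalEval (algebraMap ℚ ℝ)
      (R.map (Polynomial.mapRingHom (Int.castRingHom ℚ))) ((2 : ℚ) ^ e n) (z n)
    rw [h3, map_zero, Polynomial.map_map, Polynomial.mapRingHom_comp] at h4
    have h5 : (algebraMap ℚ ℝ).comp (Int.castRingHom ℚ) = Int.castRingHom ℝ :=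
      RingHom.ext_int _ _
    rw [h5] at h4
    simp only [eq_ratCast] at h4
    push_cast at h4
    exact h4
  rw [Ultrafilter.eventually_exists_mem_iff hSfin] at h1
  obtain ⟨G, hGS, hG⟩ := h1
  have h2 : ∀ᶠ n in (UU : Filter ℕ), ∃ ρ ∈ Set.Iio q, e n % q = ρ :=
    Eventually.of_forall fun n => ⟨_, Nat.mod_lt _ hq, rfl⟩
  rw [Ultrafilter.eventually_exists_mem_iff (Set.finite_Iio q)] at h2
  obtain ⟨ρ, -, hρ⟩ := h2
  obtain ⟨p, hp⟩ := (hSan G hGS).2 (q * (D + J + 1))
  obtain ⟨C, hC⟩ := hp.bound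
  set M : ℕ := p.natDegree + 1 with hM
  set β : ℝ := (2 : ℝ) ^ (-(ρ : ℝ) / q) with hβ
  set e' : ℕ → ℕ := fun n => e n / q with he'
  set k : Fin M → ℤ := fun i => (q * D : ℕ) - (i : ℕ) with hk
  set γ : Fin M → ℝ := fun i => (p.coeff i : ℝ) * β ^ (i : ℕ) * 2 ^ (ρ * D) with hγ
  have hβalg : IsAlgebraic ℚ β := by
    have h3 : β ^ q = (2 : ℝ) ^ (-(ρ : ℝ)) := by
      rw [hβ, ← Real.rpow_natCast, ← Real.rpow_mul (by norm_num)]
      congr 1
      field_simp
    have h4 : IsAlgebraic ℚ (β ^ q) := by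
      rw [h3, Real.rpow_neg (by norm_num), Real.rpow_natCast]
      have : ((2 : ℝ) ^ ρ)⁻¹ = algebraMap ℚ ℝ (((2 : ℚ) ^ ρ)⁻¹) := by push_cast; rfl
      rw [this]
      exact isAlgebraic_algebraMap _
    exact h4.of_pow hq
  have hγalg : ∀ i, IsAlgebraic ℚ (γ i) := by
    intro i
    apply IsAlgebraic.mul
    · apply IsAlgebraic.mul
      · exact (mem_RA _).1 (p.coeff i).2
      · exact hβalg.pow _
    · have : ((2 : ℝ) ^ (ρ * D)) = algebraMap ℚ ℝ ((2 : ℚ) ^ (ρ * D)) := by push_cast; rfl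
      rw [this]
      exact isAlgebraic_algebraMap _
  refine ⟨q, ρ, M, k, γ, hq, fun i j hij => Fin.ext (by simp only [hk] at hij; omega), hγalg, hρ, ?_⟩
  have h5 : ∀ᶠ n in atTop, C ≤ (2 : ℝ) ^ e n := htt.eventually_ge_atTop _
  filter_upwards [hG, hρ, ev_of_atTop (((rt_tendsto hq).comp htt).eventually hC),
    ev_of_atTop h5] with n h6 h7 h8 h9
  simp only [Function.comp, Real.norm_eq_abs] at h8
  set t : ℝ := (2 : ℝ) ^ e n with ht
  have ht0 : 0 < t := by positivity
  have hen : e n = q * e' n + ρ := by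
    rw [he', ← h7]
    exact (Nat.div_add_mod (e n) q).symm
  have hrt : rt q t = β * (2 : ℝ) ^ (-(e' n : ℝ)) := by
    unfold rt
    rw [ht, hen, ← Real.rpow_natCast, ← Real.rpow_mul (by norm_num), hβ,
      ← Real.rpow_add (by norm_num)]
    congr 1
    push_cast
    field_simp
    ring
  have hsum : t ^ D * Polynomial.aeval (rt q t) p = ∑ i, γ i * (2 : ℝ) ^ (k i * (e' n : ℤ)) := by
    rw [Polynomial.aeval_eq_sum_range, Finset.mul_sum, ← hM, Finset.sum_range]
    refine Finset.sum_congr rfl fun i _ => ?_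
    have h10 : (p.coeff i) • rt q t ^ (i : ℕ) = (p.coeff i : ℝ) * rt q t ^ (i : ℕ) := rfl
    rw [h10, hrt, mul_pow, ht, hen, hγ, hk]
    have h11 : ((2 : ℝ) ^ (q * e' n + ρ)) ^ D = 2 ^ (ρ * D) * (2 : ℝ) ^ ((q * D : ℕ) * (e' n) : ℕ) := by
      rw [← pow_mul, ← pow_add]
      congr 1
      ring
    have h12 : ((2 : ℝ) ^ (-(e' n : ℝ))) ^ (i : ℕ) = (2 : ℝ) ^ (-((i : ℕ) * (e' n : ℕ) : ℤ)) := by
      rw [← Real.rpow_natCast, ← Real.rpow_mul (by norm_num), ← Real.rpow_intCast]
      congr 1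
      push_cast
      ring
    have h13 : (2 : ℝ) ^ ((q * D : ℕ) * (e' n) : ℕ) * (2 : ℝ) ^ (-((i : ℕ) * (e' n : ℕ) : ℤ)) =
        (2 : ℝ) ^ ((((q * D : ℕ) : ℤ) - (i : ℕ)) * (e' n : ℤ)) := by
      rw [← zpow_natCast, ← zpow_add₀ (by norm_num)]
      congr 1
      push_cast
      ring
    simp only []
    rw [h11, h12, ← h13]
    ring
  rw [← hsum, h6, ← mul_sub, abs_mul, abs_of_pos (pow_pos ht0 D)]
  have hrt0 : 0 < rt q t := rt_pos ht0
  rw [abs_of_pos (pow_pos hrt0 _)] at h8
  have h14 : t ^ D * rt q t ^ (q * (D + J + 1)) = (t ^ J)⁻¹ * t⁻¹ := by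
    rw [pow_mul, rt_pow hq ht0, inv_pow, pow_succ, pow_add]
    field_simp
  have hJ : (t ^ J)⁻¹ = Real.exp (-J * RT.LT e n) := by
    rw [show -(J : ℝ) * RT.LT e n = -(RT.LT e n * J) by ring, Real.exp_neg, Real.exp_mul,
      RT.exp_LT, Real.rpow_natCast]
  rw [← hJ]
  calc t ^ D * |G (rt q t) - Polynomial.aeval (rt q t) p| ≤
        t ^ D * (C * rt q t ^ (q * (D + J + 1))) := mul_le_mul_of_nonneg_left h8 (pow_pos ht0 D).le
    _ = C * (t⁻¹ * (t ^ J)⁻¹) := by rw [mul_left_comm, h14]; ring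
    _ ≤ t * (t⁻¹ * (t ^ J)⁻¹) := mul_le_mul_of_nonneg_right h9 (by positivity)
    _ = _ := by field_simp

end Pool.Agent.H556.CP
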