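import Mathlib
import Pool.Agent.H556.CP.Alg

/-!
# Auxiliary lemmas
-/

set_option autoImplicit false

namespace Pool.Agent.H556.CP

open Filter Topology Pool.Agent.TH932.Abs Pool.Agent.TH932.Germs Pool.Agent.TH932.Chi
open Pool.Agent.TH796.AL Pool.Agent.TH551.SU Pool.Agent.Y724.Vj

lemma evG_gm (t z : ℕ → ℚ) (R : Polynomial (Polynomial ℤ)) :
    evG (gm t) (gm z) R = gm (fun n =>
      (R.map (Polynomial.mapRingHom (Int.castRingHom ℚ))).evalEval (t n) (z n)) := by
  induction R using Polynomial.induction_on' with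
  | add p q hp hq =>
    unfold evG at hp hq ⊢
    rw [Polynomial.eval₂_add, hp, hq, gm_add]
    congr 1
    funext n
    rw [Polynomial.map_add, Polynomial.evalEval_add]
  | monomial k p =>
    unfold evG
    rw [Polynomial.eval₂_monomial, Polynomial.coe_eval₂RingHom]
    have h1 : Polynomial.eval₂ (Int.castRingHom GG) (gm t) p =
        gm (fun n => (p.map (Int.castRingHom ℚ)).eval (t n)) := by
      induction p using Polynomial.induction_on' with
      | add p q hp hq =>
        rw [Polynomial.eval₂_add, hp, hq, gm_add]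
        congr 1
        funext n
        rw [Polynomial.map_add, Polynomial.eval_add]
      | monomial j c =>
        rw [Polynomial.eval₂_monomial, gm_pow, eq_intCast]
        have h2 : (c : GG) = gm (fun _ => (c : ℚ)) := rfl
        rw [h2, gm_mul]
        congr 1
        funext n
        simp [Polynomial.map_monomial, Polynomial.eval_monomial]
    rw [h1, gm_pow, gm_mul]
    congr 1
    funext n
    rw [Polynomial.map_monomial, ← Polynomial.C_mul_X_pow_eq_monomial, Polynomial.evalEval_mul,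
      Polynomial.evalEval_C, Polynomial.evalEval_pow, Polynomial.evalEval_X,
      Polynomial.coe_mapRingHom]

section
variable {s : ℕ} (B0 : Base s) {L : ℕ → ℝ} (hL : Tendsto L atTop atTop)
include hL

lemma int_fin (a : ℕ → ℤ) (v : Fin s) : gm (fun n => (a n : ℚ)) ∈ Sv B0 L (some v) 0 := by
  change gm _ ∈ SS L (Rv B0 (some v)) 0
  rw [mem_SS]
  intro ε hε
  filter_upwards [L_nonneg hL] with n hn
  refine ⟨1, 1, a n, 0, one_ne_zero, ?_, isCoprime_one_left, ?_, ?_⟩
  · rw [Int.cast_one, abs_one]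
    exact Real.one_le_exp (mul_nonneg hε.le hn)
  · simp
  · push_cast
    nlinarith

lemma int_sint (a : ℕ → ℤ) : Sint B0 L (gm (fun n => (a n : ℚ))) := by
  refine ⟨0, ?_⟩
  rw [mem_SS]
  intro ε hε
  filter_upwards [L_nonneg hL] with n hn
  refine ⟨1, a n, fun _ => 0, one_ne_zero, ?_, ?_, fun _ => ?_⟩
  · rw [Int.cast_one, abs_one]
    exact Real.one_le_exp (mul_nonneg hε.le hn)
  · simp
  · push_cast
    nlinarith

end

/-- distinct powers of a sequence tending to infinity are independent -/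
lemma pow_indep {x : ℕ → ℝ} (hx : Tendsto x atTop atTop) {M : ℕ} (k : Fin M → ℤ)
    (hk : Function.Injective k) (c : Fin M → ℤ)
    (h : ∀ᶠ n in (UU : Filter ℕ), ∑ i, (c i : ℝ) * x n ^ k i = 0) : c = 0 := by
  classical
  set K : ℕ := ∑ i, (k i).natAbs with hK
  have hkK : ∀ i, 0 ≤ k i + K := by
    intro i
    have : (k i).natAbs ≤ K :=
      Finset.single_le_sum (f := fun i => (k i).natAbs) (fun _ _ => Nat.zero_le _)
        (Finset.mem_univ i)
    omega
  set Q : Polynomial ℝ := ∑ i : Fin M, Polynomial.C (c i : ℝ) * Polynomial.X ^ (k i + K).toNat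
    with hQ
  have hQ0 : Q = 0 := by
    by_contra hQ0
    have h3 := ev_of_atTop (hx.eventually (Polynomial.eventually_atTop_not_isRoot Q hQ0))
    obtain ⟨n, hn1, hn2, hn3⟩ := (h3.and (h.and (ev_of_atTop (hx.eventually_gt_atTop 0)))).exists
    apply hn1
    rw [Polynomial.IsRoot, hQ, Polynomial.eval_finsetSum]
    simp only [Polynomial.eval_mul, Polynomial.eval_C, Polynomial.eval_pow, Polynomial.eval_X]
    have h4 : ∑ i, (c i : ℝ) * x n ^ (k i + K).toNat = x n ^ K * ∑ i, (c i : ℝ) * x n ^ k i := by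
      rw [Finset.mul_sum]
      refine Finset.sum_congr rfl fun i _ => ?_
      rw [← zpow_natCast (x n) (k i + K).toNat, Int.toNat_of_nonneg (hkK i),
        zpow_add₀ hn3.ne', zpow_natCast]
      ring
    rw [h4, hn2, mul_zero]
  funext i
  have h3 := congrArg (fun p => Polynomial.coeff p (k i + K).toNat) hQ0
  simp only [hQ, Polynomial.finsetSum_coeff, Polynomial.coeff_C_mul_X_pow,
    Polynomial.coeff_zero] at h3
  rw [Finset.sum_eq_single i] at h3
  · rw [if_pos rfl] at h3
    exact_mod_cast h3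
  · intro j _ hj
    rw [if_neg]
    intro h4
    apply hj
    apply hk
    have := hkK i
    have := hkK j
    omega
  · intro h
    exact absurd (Finset.mem_univ _) h

/-- the height of a quotient -/
lemma height_le (p q : ℤ) (hq : q ≠ 0) (hp : p ≠ 0) (x : ℚ) (hx : x = (p : ℚ) / q) :
    |(x.num : ℝ)| ≤ |(p : ℝ)| ∧ (x.den : ℝ) ≤ |(q : ℝ)| ∧ (∀ l : ℕ, l.Prime →
      (l ∣ x.num.natAbs ∨ l ∣ x.den) → ((l : ℤ) ∣ p ∨ (l : ℤ) ∣ q)) := by
  have h1 : x.num ∣ p := by rw [hx, ← Rat.divInt_eq_div]; exact Rat.num_dvd p hq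
  have h2 : (x.den : ℤ) ∣ q := by rw [hx, ← Rat.divInt_eq_div]; exact Rat.den_dvd p q
  refine ⟨?_, ?_, ?_⟩
  · have := Int.le_of_dvd (abs_pos.2 hp) ((abs_dvd_abs _ _).2 h1)
    exact_mod_cast this
  · have := Int.le_of_dvd (abs_pos.2 hq) ((dvd_abs _ _).2 h2)
    exact_mod_cast this
  · rintro l _ (h | h)
    · left
      exact (Int.natCast_dvd.2 h).trans h1
    · right
      exact (Int.natCast_dvd_natCast.2 h).trans h2

end Pool.Agent.H556.CP
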