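import Mathlib
import Pool.Agent.H556.CP.Lem
import Pool.Agent.H556.FG.Seq

/-!
# Divisors of Fermat numbers near algebraic multiples of `S`-units
-/

set_option autoImplicit false

namespace Pool.Agent.H556.CP

open Filter Topology Pool.Agent.TH932.Abs Pool.Agent.TH932.Germs Pool.Agent.TH932.Chi
open Pool.Agent.TH796.AL Pool.Agent.TH551.SU Pool.Agent.Y724.Vj
open Nat (fermatNumber)

/-- the real estimates for one index -/
lemma one_index {F L ε a u α : ℝ} (hε : 0 < ε) (hF : F = Real.exp L + 1)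
    (haF : a ≤ F) (ha1 : 1 ≤ a) (hFε : 2 ≤ F ^ ε)
    (hclose : |a - α * u| ≤ a ^ (Real.log a / Real.log F) * F ^ (-ε)) :
    a / 2 ≤ |α| * |u| ∧ |α| * |u| ≤ 2 * a ∧
      |a - α * u| ≤ a * Real.exp (-((1 - Real.log a / Real.log F) *
        (Real.log a / Real.log F) + ε) * L) := by
  have hF1 : 1 < F := by
    rw [hF]
    have := Real.exp_pos L
    linarith
  have hlF : 0 < Real.log F := Real.log_pos hF1
  have hla : 0 ≤ Real.log a := Real.log_nonneg ha1
  have ha0 : 0 < a := by linarith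
  set y := Real.log a / Real.log F with hy
  have hy0 : 0 ≤ y := div_nonneg hla hlF.le
  have hy1 : y ≤ 1 := by
    rw [hy, div_le_one hlF]
    exact Real.log_le_log ha0 haF
  have hlL : L ≤ Real.log F := by
    rw [Real.le_log_iff_exp_le (by linarith), hF]
    linarith
  have hya : y * Real.log F = Real.log a := by
    rw [hy]
    field_simp
  -- the bound in exponential form
  have h1 : a ^ y * F ^ (-ε) = a * Real.exp (-((1 - y) * y + ε) * Real.log F) := by
    rw [Real.rpow_def_of_pos ha0, Real.rpow_def_of_pos (by linarith : 0 < F)]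
    conv_rhs => rw [← Real.exp_log ha0]
    rw [← Real.exp_add, ← Real.exp_add]
    congr 1
    rw [← hya]
    ring
  have h2 : a * Real.exp (-((1 - y) * y + ε) * Real.log F) ≤
      a * Real.exp (-((1 - y) * y + ε) * L) := by
    apply mul_le_mul_of_nonneg_left _ ha0.le
    apply Real.exp_le_exp.2
    have h3 : 0 ≤ (1 - y) * y + ε := by nlinarith
    nlinarith
  have h3 : a * Real.exp (-((1 - y) * y + ε) * Real.log F) ≤ a / 2 := by
    have h4 : Real.exp (-((1 - y) * y + ε) * Real.log F) ≤ F ^ (-ε) := by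
      rw [Real.rpow_def_of_pos (by linarith : 0 < F)]
      apply Real.exp_le_exp.2
      have : 0 ≤ (1 - y) * y := mul_nonneg (by linarith) hy0
      nlinarith
    have h5 : F ^ (-ε) ≤ 1 / 2 := by
      rw [Real.rpow_neg (by linarith), ← one_div]
      exact one_div_le_one_div_of_le (by norm_num) hFε
    nlinarith
  rw [h1] at hclose
  have h6 := abs_le.1 (hclose.trans h3)
  have h7 : |α| * |u| = |α * u| := (abs_mul _ _).symm
  have h8 : 0 < α * u := by linarith
  rw [h7, abs_of_pos h8]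
  exact ⟨by linarith, by linarith, hclose.trans h2⟩

/-- the primes of an `S`-unit -/
lemma su_primes {s : ℕ} (b : Fin s → ℕ) (hb : ∀ v, (b v).Prime) {x : ℚ} (hx : IsSU b x)
    {p : ℕ} (hp : p.Prime) (hpd : p ∣ x.num.natAbs ∨ p ∣ x.den) :
    p ∈ Finset.univ.image b := by
  classical
  obtain ⟨σ, e, hσ, he⟩ := hx
  have hb0 : ∀ v, (b v : ℚ) ≠ 0 := fun v => by exact_mod_cast (hb v).ne_zero
  have h1 : x = ((σ * ∏ v, (b v : ℤ) ^ (e v).toNat : ℤ) : ℚ) / ((∏ v, (b v : ℤ) ^ (-(e v)).toNat : ℤ) : ℚ) := by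
    rw [he]
    push_cast
    rw [mul_div_assoc, ← Finset.prod_div_distrib]
    congr 1
    refine Finset.prod_congr rfl fun v _ => ?_
    rw [← zpow_natCast, ← zpow_natCast, ← zpow_sub₀ (hb0 v)]
    congr 1
    omega
  have hσ0 : σ ≠ 0 := by rcases hσ with rfl | rfl <;> norm_num
  have h2 := height_le (σ * ∏ v, (b v : ℤ) ^ (e v).toNat) (∏ v, (b v : ℤ) ^ (-(e v)).toNat)
    (Finset.prod_ne_zero_iff.2 fun v _ => pow_ne_zero _ (by exact_mod_cast (hb v).ne_zero))
    (mul_ne_zero hσ0 (Finset.prod_ne_zero_iff.2 fun v _ =>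
      pow_ne_zero _ (by exact_mod_cast (hb v).ne_zero))) x h1
  have hpp : Prime (p : ℤ) := Nat.prime_iff_prime_int.1 hp
  have h3 : ∀ f : Fin s → ℕ, (p : ℤ) ∣ ∏ v, (b v : ℤ) ^ f v → p ∈ Finset.univ.image b := by
    intro f hf
    obtain ⟨v, -, hv⟩ := (Prime.dvd_finsetProd_iff hpp _).1 hf
    have h4 := hpp.dvd_of_dvd_pow hv
    rw [Int.natCast_dvd_natCast] at h4
    rw [Finset.mem_image]
    exact ⟨v, Finset.mem_univ _, ((Nat.prime_dvd_prime_iff_eq hp (hb v)).1 h4).symm⟩
  rcases h2.2.2 p hp hpd with h4 | h4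
  · rcases hpp.dvd_or_dvd h4 with h5 | h5
    · exfalso
      rcases hσ with rfl | rfl
      · exact hpp.not_isUnit (isUnit_of_dvd_one h5)
      · exact hpp.not_isUnit (isUnit_of_dvd_one ((dvd_neg.2 h5).trans (by norm_num)))
    · exact h3 _ h5
  · exact h3 _ h4

/-- **the theorem for sequences** -/
theorem core {s : ℕ} (b : Fin s → ℕ) (hb : ∀ v, (b v).Prime) (hbi : Function.Injective b)
    (v2 : Fin s) (hv2 : b v2 = 2) (m : ℕ → ℕ) (hm : ∀ n, n + 2 ≤ m n) (c d : ℕ → ℤ)
    (hd0 : ∀ n, d n ≠ 0) (w : ℕ → ℚ) (hw : ∀ n, IsSU b (w n)) {K : ℝ}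
    (hwn : ∀ n, |((w n).num : ℝ)| ≤ (fermatNumber (m n) : ℝ) ^ K)
    (hwd : ∀ n, ((w n).den : ℝ) ≤ (fermatNumber (m n) : ℝ) ^ K)
    (hc : ∀ n, |(c n : ℝ)| ≤ (fermatNumber (m n) : ℝ) ^ (1 / ((n : ℝ) + 1)))
    (hd : ∀ n, |(d n : ℝ)| ≤ (fermatNumber (m n) : ℝ) ^ (1 / ((n : ℝ) + 1)))
    (a a' : ℕ → ℕ) (haa : ∀ n, a n * a' n = fermatNumber (m n)) {ε : ℝ} (hε : 0 < ε)
    (ha : ∀ n, (fermatNumber (m n) : ℝ) ^ ε ≤ a n) (ha' : ∀ n, (fermatNumber (m n) : ℝ) ^ ε ≤ a' n)
    {α : ℝ} (hα : IsAlgebraic ℚ α)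
    (hclose : ∀ n, |(a n : ℝ) - α * ((c n : ℝ) / d n * (w n : ℝ))| ≤
      (a n : ℝ) ^ (Real.log (a n) / Real.log (fermatNumber (m n))) *
        (fermatNumber (m n) : ℝ) ^ (-ε)) : False := by
  classical
  set e : ℕ → ℕ := fun n => 2 ^ m n with he
  have hmt : Tendsto m atTop atTop :=
    tendsto_atTop_mono (fun n => (Nat.le_add_right n 2).trans (hm n)) tendsto_id
  have het : Tendsto e atTop atTop :=
    (tendsto_pow_atTop_atTop_of_one_lt (by norm_num)).comp hmt
  have hL := RT.LT_tendsto het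
  set L := RT.LT e with hLdef
  set F : ℕ → ℝ := fun n => (fermatNumber (m n) : ℝ) with hFdef
  have hF : ∀ n, F n = Real.exp (L n) + 1 := by
    intro n
    rw [hLdef, RT.exp_LT, hFdef]
    simp only [fermatNumber]
    push_cast
    rfl
  have hF1 : ∀ n, 1 < F n := fun n => by
    rw [hF]
    have := Real.exp_pos (L n)
    linarith
  have hF0 : ∀ n, 0 < F n := fun n => by linarith [hF1 n]
  have hLF : ∀ n, L n ≤ Real.log (F n) := fun n => by
    rw [Real.le_log_iff_exp_le (hF0 n), hF]
    linarith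
  have hexpt : Tendsto (fun n => Real.exp (L n)) atTop atTop := Real.tendsto_exp_atTop.comp hL
  have hFt : Tendsto F atTop atTop := by
    apply tendsto_atTop_mono _ hexpt
    intro n
    rw [hF]
    linarith
  -- `log F ≤ L + 1`
  have hFL : ∀ n, 0 ≤ L n → Real.log (F n) ≤ L n + 1 := by
    intro n hn
    rw [Real.log_le_iff_le_exp (hF0 n), Real.exp_add, hF]
    have h1 : 1 ≤ Real.exp (L n) := Real.one_le_exp hn
    have h2 : (2 : ℝ) ≤ Real.exp 1 := by
      have := Real.add_one_le_exp (1 : ℝ)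
      linarith
    nlinarith
  have hev1 : ∀ᶠ n in (UU : Filter ℕ), 1 ≤ L n := ev_of_atTop (hL.eventually_ge_atTop 1)
  have hFε : Tendsto (fun n => F n ^ ε) atTop atTop := (tendsto_rpow_atTop hε).comp hFt
  have hev2 : ∀ᶠ n in (UU : Filter ℕ), 2 ≤ F n ^ ε := ev_of_atTop (hFε.eventually_ge_atTop 2)
  -- negligible sequences
  have hnegl : ∀ x : ℕ → ℤ, (∀ n, |(x n : ℝ)| ≤ F n ^ (1 / ((n : ℝ) + 1))) → Negl L x := by
    intro x hx δ hδ
    obtain ⟨N, hN⟩ := exists_nat_gt (2 / δ)
    filter_upwards [ev_of_atTop (eventually_ge_atTop N), hev1] with n hn hn2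
    refine (hx n).trans ?_
    rw [Real.rpow_def_of_pos (hF0 n)]
    apply Real.exp_le_exp.2
    have h1 : Real.log (F n) ≤ 2 * L n := by linarith [hFL n (by linarith)]
    have h2 : 1 / ((n : ℝ) + 1) ≤ δ / 2 := by
      rw [div_le_div_iff₀ (by positivity) (by norm_num)]
      rw [div_lt_iff₀ hδ] at hN
      have hN' : (N : ℝ) ≤ n := by exact_mod_cast hn
      nlinarith
    have h3 : 0 < 1 / ((n : ℝ) + 1) := by positivity
    have h4 : 0 ≤ Real.log (F n) := Real.log_nonneg (hF1 n).le
    nlinarith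
  -- the germs
  set u : ℕ → ℚ := fun n => (c n : ℚ) / d n * w n with hu
  have huR : ∀ n, ((u n : ℚ) : ℝ) = (c n : ℝ) / d n * (w n : ℝ) := fun n => by
    rw [hu]; push_cast; rfl
  have hone : ∀ᶠ n in (UU : Filter ℕ), (a n : ℝ) / 2 ≤ |α| * |(u n : ℝ)| ∧
      |α| * |(u n : ℝ)| ≤ 2 * a n ∧ |(a n : ℝ) - α * (u n : ℝ)| ≤ a n *
        Real.exp (-((1 - Real.log (a n) / Real.log (F n)) *
        (Real.log (a n) / Real.log (F n)) + ε) * L n) := by
    filter_upwards [hev1, hev2] with n h1 h2
    have h3 : a n ∣ fermatNumber (m n) := Dvd.intro _ (haa n)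
    have h4 : (a n : ℝ) ≤ F n := by
      have := Nat.le_of_dvd (by have := Nat.three_le_fermatNumber (m n); omega) h3
      change (a n : ℝ) ≤ ((fermatNumber (m n) : ℕ) : ℝ)
      exact_mod_cast this
    refine one_index hε (hF n) h4 ?_ h2 ?_
    · have := ha n
      change F n ^ ε ≤ _ at this
      linarith
    · rw [huR]
      exact hclose n
  have ha1 : ∀ᶠ n in (UU : Filter ℕ), (2 : ℝ) ≤ a n := by
    filter_upwards [hev2] with n h2
    exact h2.trans (ha n)
  have hα0 : α ≠ 0 := by
    rintro rfl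
    obtain ⟨n, h1, h2⟩ := (hone.and ha1).exists
    rw [abs_zero, zero_mul] at h1
    linarith
  have hαp : 0 < |α| := abs_pos.2 hα0
  have hu0 : ∀ᶠ n in (UU : Filter ℕ), u n ≠ 0 := by
    filter_upwards [hone, ha1] with n h1 h2 h3
    rw [h3] at h1
    simp only [Rat.cast_zero, abs_zero, mul_zero] at h1
    linarith
  have hc0 : ∀ᶠ n in (UU : Filter ℕ), c n ≠ 0 := by
    filter_upwards [hu0] with n h1 h2
    apply h1
    rw [hu]
    simp [h2]
  have hwB : Bd L (gm w) := by
    refine ⟨fun n => (w n).num, fun n => ((w n).den : ℤ), 2 * |K|, ?_, ?_, ?_, ?_⟩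
    · filter_upwards [hev1] with n hn
      refine (hwn n).trans ?_
      change F n ^ K ≤ _
      rw [Real.rpow_def_of_pos (hF0 n)]
      apply Real.exp_le_exp.2
      have h1 : Real.log (F n) ≤ 2 * L n := by linarith [hFL n (by linarith)]
      have h4 : 0 ≤ Real.log (F n) := Real.log_nonneg (hF1 n).le
      have h5 := le_abs_self K
      have h6 := abs_nonneg K
      nlinarith
    · filter_upwards [hev1] with n hn
      simp only [Int.cast_natCast]
      rw [abs_of_nonneg (Nat.cast_nonneg _)]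
      refine (hwd n).trans ?_
      change F n ^ K ≤ _
      rw [Real.rpow_def_of_pos (hF0 n)]
      apply Real.exp_le_exp.2
      have h1 : Real.log (F n) ≤ 2 * L n := by linarith [hFL n (by linarith)]
      have h4 : 0 ≤ Real.log (F n) := Real.log_nonneg (hF1 n).le
      have h5 := le_abs_self K
      have h6 := abs_nonneg K
      nlinarith
    · exact Eventually.of_forall fun n => Int.natCast_ne_zero.2 (w n).den_ne_zero
    · congr 1
      funext n
      exact_mod_cast (Rat.num_div_den (w n)).symm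
  obtain ⟨gw, hgw⟩ := isCh_su b hb hbi hL hw hwB
  set B0 := bs b hb hbi with hB0
  have hcd : gm (fun n => (c n : ℚ) / d n) ∈ KK L hL :=
    ⟨c, d, hnegl c hc, hnegl d hd, Eventually.of_forall hd0, rfl⟩
  have hcd0 : gm (fun n => (c n : ℚ) / d n) ≠ 0 := by
    rw [gm_ne_zero]
    filter_upwards [hc0] with n hn
    exact div_ne_zero (by exact_mod_cast hn) (by exact_mod_cast hd0 n)
  have hU : IsCh B0 hL (gm u) gw := by
    have h1 := (IsCh.const (B0 := B0) (hL := hL) hcd hcd0).mul hgw
    rw [zero_add, gm_mul] at h1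
    exact h1
  -- the germ of the power of two
  have hlog2 : 0 < Real.log 2 := Real.log_pos (by norm_num)
  have hP2 : B0.P v2 = 2 := hv2
  have hT : IsCh B0 hL (gm fun n => (2 : ℚ) ^ e n) (Pi.single v2 (1 / Real.log 2)) := by
    have h1 := isCh_prime (B0 := B0) (hL := hL) v2 (fun n => (e n : ℤ)) (1 / Real.log 2) (by
      intro δ hδ
      filter_upwards [hev1] with n hn
      have h2 : L n = e n * Real.log 2 := rfl
      have h3 : ((e n : ℤ) : ℝ) - 1 / Real.log 2 * L n = 0 := by
        rw [h2]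
        push_cast
        field_simp
        ring
      rw [h3, abs_zero]
      nlinarith)
    rw [hP2] at h1
    simp only [zpow_natCast] at h1
    exact_mod_cast h1
  set T : GG := gm fun n => (2 : ℚ) ^ e n with hTdef
  set A : GG := gm fun n => ((a n : ℤ) : ℚ) with hA
  set A' : GG := gm fun n => ((a' n : ℤ) : ℚ) with hA'
  have hAA : A * A' = T + 1 := by
    rw [hA, hA', hTdef, gm_mul, ← gm_one, gm_add]
    congr 1
    funext n
    have h1 := haa n
    have h2 : ((a n * a' n : ℕ) : ℚ) = ((fermatNumber (m n) : ℕ) : ℚ) := by rw [h1]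
    unfold fermatNumber at h2
    push_cast at h2 ⊢
    exact h2
  have hU0 : gm u ≠ 0 := gm_ne_zero.2 hu0
  have hT0 : T ≠ 0 := gm_ne_zero.2 (Eventually.of_forall fun n => by positivity)
  set z : GG := A * (gm u)⁻¹ with hz
  set z' : GG := gm u * A' * T⁻¹ with hz'
  have hrel : T * z * z' = T + 1 := by
    rw [← hAA, hz, hz']
    field_simp
  have hzg : z = gm (fun n => (a n : ℚ) / u n) := by
    rw [hz, hA, gm_inv, gm_mul]
    congr 1
  -- the weights
  set ν : Fin s → ℝ := fun v => lv B0 (some v) gw with hν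
  set y : ℝ := ∑ v, ν v with hy
  have hny : lv B0 none gw = -y := by
    have := lv_sum (B := B0) gw
    rw [Fintype.sum_option] at this
    linarith
  have hsz : ∀ δ : ℝ, 0 < δ → ∀ᶠ n in (UU : Filter ℕ),
      |Real.log (a n) / Real.log (F n) - y| ≤ δ := by
    intro δ hδ
    have h1 := hU.mem none
    have h2 := hU.inv.mem none
    rw [hny] at h1
    rw [lv_neg, hny, neg_neg, gm_inv] at h2
    have h1' := (mem_SS.1 h1) (δ / 4) (by positivity)
    have h2' := (mem_SS.1 h2) (δ / 4) (by positivity)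
    have h3 : ∀ᶠ n in atTop, Real.log (2 * |α|) ≤ δ / 4 * L n :=
      (hL.const_mul_atTop (by positivity : 0 < δ / 4)).eventually_ge_atTop _
    have h3' : ∀ᶠ n in atTop, Real.log (2 / |α|) ≤ δ / 4 * L n :=
      (hL.const_mul_atTop (by positivity : 0 < δ / 4)).eventually_ge_atTop _
    have h4 : ∀ᶠ n in atTop, |y| ≤ δ / 4 * L n :=
      (hL.const_mul_atTop (by positivity : 0 < δ / 4)).eventually_ge_atTop _
    filter_upwards [h1', h2', ev_of_atTop h3, ev_of_atTop h3', ev_of_atTop h4, hone, hev1, hu0, ha1]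
      with n g1 g2 g3 g3' g4 g5 g6 g7 g8
    obtain ⟨g5a, g5b, -⟩ := g5
    have g1' : |(u n : ℝ)| ≤ Real.exp (-(-y - δ / 4) * L n) := g1
    have g2' : |(((u n)⁻¹ : ℚ) : ℝ)| ≤ Real.exp (-(y - δ / 4) * L n) := g2
    have hur : (0 : ℝ) < |(u n : ℝ)| := abs_pos.2 (by exact_mod_cast g7)
    have hapos : (0 : ℝ) < a n := by linarith
    -- upper bound
    have u1 : Real.log (a n) ≤ Real.log (2 * |α|) + (y + δ / 4) * L n := by
      rw [Real.log_le_iff_le_exp hapos, Real.exp_add, Real.exp_log (by positivity)]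
      have e1 : Real.exp (-(-y - δ / 4) * L n) = Real.exp ((y + δ / 4) * L n) := by ring_nf
      rw [e1] at g1'
      calc (a n : ℝ) ≤ 2 * |α| * |(u n : ℝ)| := by linarith
        _ ≤ _ := mul_le_mul_of_nonneg_left g1' (by positivity)
    have u2 : (y - δ / 4) * L n - Real.log (2 / |α|) ≤ Real.log (a n) := by
      rw [Real.le_log_iff_exp_le hapos, Real.exp_sub, Real.exp_log (by positivity)]
      rw [Rat.cast_inv, abs_inv, inv_le_iff_one_le_mul₀ hur] at g2'
      have e2 : Real.exp ((y - δ / 4) * L n) * Real.exp (-(y - δ / 4) * L n) = 1 := by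
        rw [← Real.exp_add]
        ring_nf
        exact Real.exp_zero
      have e3 : Real.exp ((y - δ / 4) * L n) ≤ |(u n : ℝ)| := by
        have := mul_le_mul_of_nonneg_left g2' (Real.exp_pos ((y - δ / 4) * L n)).le
        rw [mul_one, ← mul_assoc, e2, one_mul] at this
        exact this
      rw [div_le_iff₀ (by positivity)]
      calc _ ≤ |(u n : ℝ)| := e3
        _ = (|α| * |(u n : ℝ)|) / |α| := by field_simp
        _ ≤ (2 * a n) / |α| := div_le_div_of_nonneg_right g5b hαp.le
        _ = _ := by ring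
    have hLn := hFL n (by linarith)
    have hlF : 0 < Real.log (F n) := by linarith [hLF n]
    have h5 : Real.log (a n) / Real.log (F n) - y =
        (Real.log (a n) - y * Real.log (F n)) / Real.log (F n) := by field_simp
    rw [h5, abs_div, abs_of_pos hlF, div_le_iff₀ hlF]
    have h6 : |y * Real.log (F n) - y * L n| ≤ |y| := by
      rw [← mul_sub, abs_mul, abs_of_nonneg (show 0 ≤ Real.log (F n) - L n by linarith [hLF n])]
      have := abs_nonneg y
      nlinarith [hLF n]
    have h7 := abs_le.1 h6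
    have h8 := hLF n
    rw [abs_le]
    constructor <;> nlinarith
  have hyn : ∀ᶠ n in (UU : Filter ℕ), 0 ≤ Real.log (a n) / Real.log (F n) ∧
      Real.log (a n) / Real.log (F n) ≤ 1 := by
    filter_upwards [ha1] with n h1
    have h2 : 0 < Real.log (F n) := Real.log_pos (hF1 n)
    have h3 : a n ∣ fermatNumber (m n) := Dvd.intro _ (haa n)
    have h4 : (a n : ℝ) ≤ F n := by
      have := Nat.le_of_dvd (by have := Nat.three_le_fermatNumber (m n); omega) h3
      change (a n : ℝ) ≤ ((fermatNumber (m n) : ℕ) : ℝ)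
      exact_mod_cast this
    refine ⟨div_nonneg (Real.log_nonneg (by linarith)) h2.le, ?_⟩
    rw [div_le_one h2]
    exact Real.log_le_log (by linarith) h4
  have hy0 : 0 ≤ y := by
    refine le_of_forall_pos_le_add fun δ hδ => ?_
    obtain ⟨n, h1, h2⟩ := ((hsz δ hδ).and hyn).exists
    have := abs_le.1 h1
    linarith
  have hy1 : y ≤ 1 := by
    refine le_of_forall_pos_le_add fun δ hδ => ?_
    obtain ⟨n, h1, h2⟩ := ((hsz δ hδ).and hyn).exists
    have := abs_le.1 h1
    linarith
  set κ : ℝ := y * (1 - y) + ε / 2 with hκ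
  have hzc : rho z - algebraMap ℝ HR α ∈ SR L κ := by
    rw [hzg, rho_gm, cst_eq, gr_sub, mem_SR]
    intro δ hδ
    have h3 : ∀ᶠ n in atTop, Real.log (2 * |α|) ≤ ε / 4 * L n :=
      (hL.const_mul_atTop (by positivity : 0 < ε / 4)).eventually_ge_atTop _
    filter_upwards [hsz (ε / 4) (by positivity), hyn, hone, hu0, ev_of_atTop h3, hev1] with n
      g1 g2 g3 g4 g5 g6
    set yn := Real.log (a n) / Real.log (F n) with hyn'
    obtain ⟨g3a, -, g3b⟩ := g3
    have hur : (0 : ℝ) < |(u n : ℝ)| := abs_pos.2 (by exact_mod_cast g4)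
    have hune : ((u n : ℚ) : ℝ) ≠ 0 := by exact_mod_cast g4
    have e1 : (((a n : ℚ) / u n : ℚ) : ℝ) - α = ((a n : ℝ) - α * (u n : ℝ)) / (u n : ℝ) := by
      push_cast
      field_simp
    rw [e1, abs_div, div_le_iff₀ hur]
    refine g3b.trans ?_
    have e2 : y * (1 - y) - ε / 4 ≤ (1 - yn) * yn := by
      have := abs_le.1 g1
      nlinarith [g2.1, g2.2]
    have e3 : Real.exp (-((1 - yn) * yn + ε) * L n) * (2 * |α|) ≤ Real.exp (-(κ - δ) * L n) := by
      rw [← Real.exp_log (show 0 < 2 * |α| by positivity), ← Real.exp_add]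
      apply Real.exp_le_exp.2
      rw [hκ]
      nlinarith
    have e4 : (a n : ℝ) ≤ 2 * |α| * |(u n : ℝ)| := by linarith
    calc (a n : ℝ) * Real.exp (-((1 - yn) * yn + ε) * L n) ≤
          (2 * |α| * |(u n : ℝ)|) * Real.exp (-((1 - yn) * yn + ε) * L n) :=
          mul_le_mul_of_nonneg_right e4 (Real.exp_pos _).le
      _ = (Real.exp (-((1 - yn) * yn + ε) * L n) * (2 * |α|)) * |(u n : ℝ)| := by ring
      _ ≤ _ := mul_le_mul_of_nonneg_right e3 hur.le
  have hone' : (1 : HR) ∈ SR L 0 := by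
    have := SR_cst hL (1 : ℝ)
    rwa [map_one] at this
  have hκ0 : 0 ≤ κ := by
    have : 0 ≤ y * (1 - y) := mul_nonneg hy0 (by linarith)
    linarith
  have hzi : rho z ∈ SR L 0 := by
    have h1 := SR_add hL (SR_anti hL hκ0 hzc) (SR_cst hL α)
    rwa [sub_add_cancel] at h1
  have hzi' : rho z' ∈ SR L 0 := by
    have h0 : z' = gm (fun n => u n * (a' n : ℚ) * ((2 : ℚ) ^ e n)⁻¹) := by
      rw [hz', hA', hTdef, gm_inv, gm_mul, gm_mul]
      congr 1
    rw [h0, rho_gm, mem_SR]
    intro δ hδ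
    have h3 : ∀ᶠ n in atTop, Real.log (4 / |α|) ≤ δ * L n :=
      (hL.const_mul_atTop hδ).eventually_ge_atTop _
    filter_upwards [hone, hev1, ev_of_atTop h3] with n g1 g2 g3
    obtain ⟨-, g1b, -⟩ := g1
    have e1 : (F n : ℝ) = (a n : ℝ) * a' n := by
      have h1 := haa n
      have h2 : ((a n * a' n : ℕ) : ℝ) = ((fermatNumber (m n) : ℕ) : ℝ) := by rw [h1]
      push_cast at h2
      exact h2.symm
    have e2 : ((2 : ℝ) ^ e n) = Real.exp (L n) := (RT.exp_LT e n).symm
    have e3 : F n ≤ 2 * Real.exp (L n) := by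
      rw [hF]
      have : 1 ≤ Real.exp (L n) := Real.one_le_exp (by linarith)
      linarith
    push_cast
    rw [e2, abs_mul, abs_mul, abs_inv, abs_of_pos (Real.exp_pos (L n)),
      abs_of_nonneg (show (0 : ℝ) ≤ (a' n : ℝ) from Nat.cast_nonneg _)]
    have e4 : |α| * (|(u n : ℝ)| * (a' n : ℝ) * (Real.exp (L n))⁻¹) ≤ 4 := by
      have h5 : |α| * |(u n : ℝ)| * a' n ≤ 4 * Real.exp (L n) := by
        calc |α| * |(u n : ℝ)| * a' n ≤ 2 * a n * a' n :=
              mul_le_mul_of_nonneg_right g1b (Nat.cast_nonneg _)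
          _ = 2 * F n := by rw [e1]; ring
          _ ≤ _ := by linarith
      have h6 : |α| * (|(u n : ℝ)| * (a' n : ℝ) * (Real.exp (L n))⁻¹) =
          (|α| * |(u n : ℝ)| * a' n) / Real.exp (L n) := by field_simp
      rw [h6, div_le_iff₀ (Real.exp_pos _)]
      exact h5
    calc |(u n : ℝ)| * (a' n : ℝ) * (Real.exp (L n))⁻¹ ≤ 4 / |α| := by
          rw [le_div_iff₀ hαp]
          linarith
      _ = Real.exp (Real.log (4 / |α|)) := (Real.exp_log (by positivity)).symm
      _ ≤ _ := by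
          apply Real.exp_le_exp.2
          linarith
  -- the places of `T`
  have hTn : lv B0 none (Pi.single v2 (1 / Real.log 2)) = -1 := by
    change -∑ i, (Pi.single v2 (1 / Real.log 2) : Fin s → ℝ) i * Real.log (B0.P i) = -1
    rw [Finset.sum_eq_single v2]
    · rw [Pi.single_eq_same, hP2]
      push_cast
      field_simp
    · intro i _ hi
      rw [Pi.single_eq_of_ne hi, zero_mul]
    · intro h
      exact absurd (Finset.mem_univ _) h
  have hTsum : ∑ v, lv B0 (some v) (Pi.single v2 (1 / Real.log 2)) = 1 := by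
    have := lv_sum (B := B0) (Pi.single v2 (1 / Real.log 2))
    rw [Fintype.sum_option, hTn] at this
    linarith
  have hTi : rho T ∈ SR L (-1) := by
    have := SR_rho (hT.mem none)
    rwa [hTn] at this
  have hAint : ∀ v, A ∈ Sv B0 L (some v) 0 := fun v => int_fin B0 hL (fun n => (a n : ℤ)) v
  have hAint' : ∀ v, A' ∈ Sv B0 L (some v) 0 := fun v => int_fin B0 hL (fun n => (a' n : ℤ)) v
  have hAs : Sint B0 L A := int_sint B0 hL (fun n => (a n : ℤ))
  have hAs' : Sint B0 L A' := int_sint B0 hL (fun n => (a' n : ℤ))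
  by_cases hno : ∀ R : Polynomial (Polynomial ℤ), R ≠ 0 → evG T z R ≠ 0
  · refine trans B0 hL hrel (fun v => lv B0 (some v) (Pi.single v2 (1 / Real.log 2))) ν hTsum
      (fun v => hT.mem (some v)) (fun v => ?_) (fun v => ?_) hTi hzi hzi' hT.sint
      (Sint.mul hL hAs hU.inv.sint) (Sint.mul hL (Sint.mul hL hU.sint hAs') hT.inv.sint) hy.symm
      hy0 hy1 hα hα0 (κ := κ) (by rw [hκ]; linarith) hzc hno
    · have h1 := (filt_v (B := B0) hL (some v)).mul_mem (hAint v) (hU.inv.mem (some v))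
      rw [lv_neg, zero_add] at h1
      exact h1
    · have h1 := (filt_v (B := B0) hL (some v)).mul_mem ((filt_v (B := B0) hL (some v)).mul_mem
        (hU.mem (some v)) (hAint' v)) (hT.inv.mem (some v))
      rw [lv_neg, add_zero, ← sub_eq_add_neg] at h1
      exact h1
  · push Not at hno
    obtain ⟨R, hR, hRz⟩ := hno
    rw [hzg, hTdef, evG_gm, ← gm_zero, gm_eq] at hRz
    obtain ⟨q, ρ, M, k, γ, hq, hk, hγ, hρ, happ⟩ := expand het (fun n => (a n : ℚ) / u n) R hR hRz 2
    have hq0 : (0 : ℝ) < q := by exact_mod_cast (by omega : 0 < q)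
    -- the units
    have hE : IsCh B0 hL (gm fun n => (2 : ℚ) ^ (e n / q)) (Pi.single v2 (1 / (q * Real.log 2))) := by
      have h1 := isCh_prime (B0 := B0) (hL := hL) v2 (fun n => ((e n / q : ℕ) : ℤ))
        (1 / (q * Real.log 2)) (by
        intro δ hδ
        have h3 : ∀ᶠ n in atTop, 1 ≤ δ * L n :=
          (hL.const_mul_atTop hδ).eventually_ge_atTop _
        filter_upwards [ev_of_atTop h3] with n hn
        refine le_trans ?_ hn
        have h2 : L n = e n * Real.log 2 := rfl
        have h4 : 1 / (q * Real.log 2) * L n = (e n : ℝ) / q := by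
          rw [h2]
          field_simp
        rw [h4, Int.cast_natCast, abs_le]
        have h5 : ((e n / q : ℕ) : ℝ) ≤ (e n : ℝ) / q := Nat.cast_div_le
        have h6 : (e n : ℝ) / q < ((e n / q : ℕ) : ℝ) + 1 := by
          rw [div_lt_iff₀ hq0]
          have : e n < (e n / q + 1) * q := by
            have h7 := Nat.div_add_mod (e n) q
            have h8 := Nat.mod_lt (e n) (show 0 < q by omega)
            nlinarith
          exact_mod_cast this
        constructor <;> linarith)
      rw [hP2] at h1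
      simp only [zpow_natCast] at h1
      exact_mod_cast h1
    set E : GG := gm fun n => (2 : ℚ) ^ (e n / q) with hEdef
    set ui : Fin M → GG := fun i => gm u * E ^ k i with hui
    have huiC : ∀ i, IsCh B0 hL (ui i) (gw + (k i : ℝ) • (Pi.single v2 (1 / (q * Real.log 2)) : Fin s → ℝ)) :=
      fun i => hU.mul (hE.zpow (k i))
    have hEk : ∀ i, E ^ k i = gm (fun n => (2 : ℚ) ^ (k i * ((e n / q : ℕ) : ℤ))) := by
      intro i
      have h1 : ∀ j : ℕ, E ^ j = gm (fun n => (2 : ℚ) ^ (((j : ℕ) : ℤ) * ((e n / q : ℕ) : ℤ))) := by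
        intro j
        rw [hEdef, gm_pow]
        congr 1
        funext n
        rw [← pow_mul, ← Nat.cast_mul, zpow_natCast, mul_comm]
      cases hki : k i with
      | ofNat j =>
        rw [Int.ofNat_eq_natCast, zpow_natCast, h1]
      | negSucc j =>
        rw [zpow_negSucc, h1, gm_inv]
        congr 1
        funext n
        rw [← zpow_neg]
        congr 1
    have huie : ∀ (S : Finset (Fin M)) (γ' : Fin M → ℝ), ∑ i ∈ S, algebraMap ℝ HR (γ' i) * rho (ui i) =
        gr (fun n => ∑ i ∈ S, γ' i * ((u n : ℝ) * (2 : ℝ) ^ (k i * ((e n / q : ℕ) : ℤ)))) := by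
      intro S γ'
      induction S using Finset.induction_on with
      | empty => simp only [Finset.sum_empty]; exact gr_zero.symm
      | insert i S hi ih =>
        rw [Finset.sum_insert hi, ih, hui]
        simp only []
        rw [hEk, gm_mul, rho_gm, cst_eq, gr_mul, gr_add]
        congr 1
        funext n
        rw [Finset.sum_insert hi]
        push_cast
        rfl
    have hrho : rho A - ∑ i, algebraMap ℝ HR (γ i) * rho (ui i) ∈ SR L (1 / 2) := by
      rw [huie, hA, rho_gm, gr_sub, mem_SR]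
      intro δ hδ
      have h3 : ∀ᶠ n in atTop, Real.log (4 / |α|) ≤ 1 / 2 * L n :=
        (hL.const_mul_atTop (by norm_num : (0 : ℝ) < 1 / 2)).eventually_ge_atTop _
      filter_upwards [happ, hone, hev1, hu0, ev_of_atTop h3] with n g1 g2 g3 g4 g5
      obtain ⟨-, g2b, -⟩ := g2
      have hune : ((u n : ℚ) : ℝ) ≠ 0 := by exact_mod_cast g4
      have hur : (0 : ℝ) < |(u n : ℝ)| := abs_pos.2 hune
      have e1 : (((a n : ℤ) : ℚ) : ℝ) - ∑ i, γ i * ((u n : ℝ) * (2 : ℝ) ^ (k i * ((e n / q : ℕ) : ℤ))) =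
          (u n : ℝ) * ((((a n : ℚ) / u n : ℚ) : ℝ) - ∑ i, γ i * (2 : ℝ) ^ (k i * ((e n / q : ℕ) : ℤ))) := by
        rw [mul_sub, Finset.mul_sum]
        congr 1
        · push_cast
          field_simp
        · refine Finset.sum_congr rfl fun i _ => ?_
          ring
      rw [e1, abs_mul]
      have e2 : (a n : ℝ) ≤ F n := by
        have h3 : a n ∣ fermatNumber (m n) := Dvd.intro _ (haa n)
        have := Nat.le_of_dvd (by have := Nat.three_le_fermatNumber (m n); omega) h3
        change (a n : ℝ) ≤ ((fermatNumber (m n) : ℕ) : ℝ)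
        exact_mod_cast this
      have e3 : F n ≤ 2 * Real.exp (L n) := by
        rw [hF]
        have : 1 ≤ Real.exp (L n) := Real.one_le_exp (by linarith)
        linarith
      have e4 : |(u n : ℝ)| ≤ 4 / |α| * Real.exp (L n) := by
        rw [div_mul_eq_mul_div, le_div_iff₀ hαp]
        linarith
      calc |(u n : ℝ)| * |(((a n : ℚ) / u n : ℚ) : ℝ) - ∑ i, γ i * (2 : ℝ) ^ (k i * ((e n / q : ℕ) : ℤ))|
          ≤ (4 / |α| * Real.exp (L n)) * Real.exp (-(2 : ℕ) * L n) :=
            mul_le_mul e4 g1 (abs_nonneg _) (by positivity)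
        _ = Real.exp (Real.log (4 / |α|)) * Real.exp (-L n) := by
            rw [Real.exp_log (by positivity), mul_assoc, ← Real.exp_add]
            congr 2
            push_cast
            ring
        _ = Real.exp (Real.log (4 / |α|) + -L n) := (Real.exp_add _ _).symm
        _ ≤ _ := by
            apply Real.exp_le_exp.2
            nlinarith
    obtain ⟨N, c', hNc, hsum⟩ := comb B0 hL A hAint hAs M ui _ huiC γ hγ (η := 1 / 2)
      (by norm_num) hrho
    have hsume : ∀ S : Finset (Fin M), ∑ i ∈ S, (c' i : GG) * ui i =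
        gm (fun n => ∑ i ∈ S, (c' i : ℚ) * (u n * (2 : ℚ) ^ (k i * ((e n / q : ℕ) : ℤ)))) := by
      intro S
      induction S using Finset.induction_on with
      | empty => simp only [Finset.sum_empty]; exact gm_zero.symm
      | insert i S hi ih =>
        rw [Finset.sum_insert hi, ih, hui]
        simp only []
        have h4 : (c' i : GG) = gm (fun _ => (c' i : ℚ)) := rfl
        rw [hEk, gm_mul, h4, gm_mul, gm_add]
        congr 1
        funext n
        rw [Finset.sum_insert hi]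
    have hN : N ≠ 0 := by
      rintro rfl
      have hc' : c' ≠ 0 := by simpa using hNc
      apply hc'
      rw [Int.cast_zero, zero_mul, hsume, ← gm_zero, gm_eq] at hsum
      have hxt : Tendsto (fun n => (2 : ℝ) ^ (e n / q)) atTop atTop :=
        (tendsto_pow_atTop_atTop_of_one_lt (by norm_num)).comp
          ((Nat.tendsto_div_const_atTop (by omega)).comp het)
      apply pow_indep hxt k hk c'
      filter_upwards [hsum, hu0] with n g1 g2
      have g3 : (u n : ℚ) * ∑ i, (c' i : ℚ) * (2 : ℚ) ^ (k i * ((e n / q : ℕ) : ℤ)) = 0 := by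
        rw [Finset.mul_sum, g1]
        refine Finset.sum_congr rfl fun i _ => ?_
        ring
      have g4 := (mul_eq_zero.1 g3).resolve_left g2
      have g5 := congrArg (fun r : ℚ => (r : ℝ)) g4
      simp only [Rat.cast_sum, Rat.cast_mul, Rat.cast_zpow, Rat.cast_intCast, Rat.cast_ofNat,
        Rat.cast_zero] at g5
      rw [← g5]
      refine Finset.sum_congr rfl fun i _ => ?_
      rw [← zpow_natCast, ← zpow_mul, mul_comm (k i)]
    -- the contradiction
    rw [hsume, hA] at hsum
    have h4 : (N : GG) = gm (fun _ => (N : ℚ)) := rfl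
    rw [h4, gm_mul, gm_eq] at hsum
    set S0 : Finset ℕ := Finset.univ.image b with hS0
    set Kk : ℕ := ∑ i, (k i).natAbs with hKk
    obtain ⟨ε1, hε1, m₁, hmain⟩ := Pool.Agent.H556.FG.main S0 M (K + Kk) ε hε
    have hFε1 : Tendsto (fun n => F n ^ (ε1 / 2)) atTop atTop :=
      (tendsto_rpow_atTop (by positivity)).comp hFt
    have hFε2 : Tendsto (fun n => F n ^ (ε / 2)) atTop atTop :=
      (tendsto_rpow_atTop (by positivity)).comp hFt
    obtain ⟨N1, hN1⟩ := exists_nat_gt (2 / ε1)
    obtain ⟨N2, hN2⟩ := exists_nat_gt (2 / ε)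
    obtain ⟨n, ⟨g1, g2, g3, g4, g5, g6⟩, g7, g8, g9⟩ := ((hsum.and (ev_of_atTop
      ((hFε1.eventually_ge_atTop (∑ i, |(c' i : ℝ)|)).and
      ((hFε2.eventually_gt_atTop |(N : ℝ)|).and ((eventually_ge_atTop N1).and
      ((eventually_ge_atTop N2).and (hmt.eventually_ge_atTop m₁))))))).and
      (ha1.and (hc0.and hu0))).exists
    have hdn : (d n : ℚ) ≠ 0 := by exact_mod_cast hd0 n
    -- the sum
    have hs1 : ∑ i, ((c' i * c n : ℤ) : ℚ) * (w n * (2 : ℚ) ^ (k i * ((e n / q : ℕ) : ℤ))) =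
        ((d n * N * (a n : ℤ) : ℤ) : ℚ) := by
      have h5 : ((d n * N * (a n : ℤ) : ℤ) : ℚ) = d n * ((N : ℚ) * ((a n : ℤ) : ℚ)) := by
        push_cast
        ring
      rw [h5, g1, Finset.mul_sum]
      refine Finset.sum_congr rfl fun i _ => ?_
      rw [hu]
      simp only [Int.cast_mul]
      field_simp
    have hcb : ∀ x : ℕ → ℤ, |(x n : ℝ)| ≤ F n ^ (1 / ((n : ℝ) + 1)) → ∀ δ : ℝ, 0 < δ → 2 / δ < n →
        |(x n : ℝ)| ≤ F n ^ (δ / 2) := by
      intro x hx δ hδ hn
      refine hx.trans (Real.rpow_le_rpow_of_exponent_le (hF1 n).le ?_)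
      rw [div_le_div_iff₀ (by positivity) (by norm_num)]
      rw [div_lt_iff₀ hδ] at hn
      nlinarith
    have hN1' : 2 / ε1 < n := hN1.trans_le (by exact_mod_cast g4)
    have hN2' : 2 / ε < n := hN2.trans_le (by exact_mod_cast g5)
    have hFK : ∀ j : ℕ, j ≤ Kk * (e n / q) → (2 : ℝ) ^ j ≤ F n ^ (Kk : ℝ) := by
      intro j hj
      have h5 : (2 : ℝ) ^ e n ≤ F n := by
        rw [hF, ← RT.exp_LT]
        linarith
      rw [Real.rpow_natCast]
      calc (2 : ℝ) ^ j ≤ (2 : ℝ) ^ (Kk * e n) := by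
            apply pow_le_pow_right₀ (by norm_num)
            exact hj.trans (Nat.mul_le_mul_left _ (Nat.div_le_self _ _))
        _ = ((2 : ℝ) ^ e n) ^ Kk := by rw [mul_comm, pow_mul]
        _ ≤ F n ^ Kk := pow_le_pow_left₀ (by positivity) h5 Kk
    have hwn0 : w n ≠ 0 := by
      intro h5
      apply g9
      rw [hu]
      simp [h5]
    have key := hmain (m n) g6 (fun i => c' i * c n)
      (fun i => w n * (2 : ℚ) ^ (k i * ((e n / q : ℕ) : ℤ)))
      (by
        intro i
        push_cast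
        rw [abs_mul]
        have h5 : |(c' i : ℝ)| ≤ F n ^ (ε1 / 2) :=
          (Finset.single_le_sum (f := fun i => |(c' i : ℝ)|) (fun _ _ => abs_nonneg _)
            (Finset.mem_univ i)).trans g2
        have h6 := hcb c (hc n) ε1 hε1 hN1'
        have h7 : F n ^ (ε1 / 2) * F n ^ (ε1 / 2) = F n ^ ε1 := by
          rw [← Real.rpow_add (hF0 n)]
          congr 1
          ring
        change _ ≤ F n ^ ε1
        rw [← h7]
        exact mul_le_mul h5 h6 (abs_nonneg _) (Real.rpow_nonneg (hF0 n).le _))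
      (fun i => mul_ne_zero hwn0 (zpow_ne_zero _ (by norm_num)))
      (by
        intro i p hp hpd
        have h5 : IsSU b (w n * (2 : ℚ) ^ (k i * ((e n / q : ℕ) : ℤ))) := by
          refine FG.isSU_mul hb (hw n) ⟨1, Pi.single v2 (k i * ((e n / q : ℕ) : ℤ)), Or.inl rfl, ?_⟩
          rw [Finset.prod_eq_single v2]
          · rw [Pi.single_eq_same, hv2]
            push_cast
            ring
          · intro v _ hv
            rw [Pi.single_eq_of_ne hv, zpow_zero]
          · intro h
            exact absurd (Finset.mem_univ _) h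
        exact su_primes b hb h5 hp hpd)
      (by
        intro i
        have hki : (k i).natAbs ≤ Kk :=
          Finset.single_le_sum (f := fun i => (k i).natAbs) (fun _ _ => Nat.zero_le _)
            (Finset.mem_univ i)
        set j : ℤ := k i * ((e n / q : ℕ) : ℤ) with hj
        have hjab : j.natAbs ≤ Kk * (e n / q) := by
          rw [hj, Int.natAbs_mul, Int.natAbs_natCast]
          exact Nat.mul_le_mul_right _ hki
        have h2 : (2 : ℚ) ^ j = (2 : ℚ) ^ j.toNat / (2 : ℚ) ^ (-j).toNat := by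
          rw [← zpow_natCast, ← zpow_natCast, ← zpow_sub₀ (by norm_num)]
          congr 1
          omega
        have h3 := height_le ((w n).num * 2 ^ j.toNat) ((w n).den * 2 ^ (-j).toNat)
          (mul_ne_zero (by exact_mod_cast (w n).den_ne_zero) (by positivity))
          (mul_ne_zero (Rat.num_ne_zero.2 hwn0) (by positivity)) (w n * (2 : ℚ) ^ j) (by
            rw [h2]
            conv_lhs => rw [← Rat.num_div_den (w n)]
            push_cast
            field_simp)
        have hFs : F n ^ (K + (Kk : ℝ)) = F n ^ K * F n ^ (Kk : ℝ) := Real.rpow_add (hF0 n) _ _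
        change _ ≤ F n ^ (K + (Kk : ℝ)) ∧ _ ≤ F n ^ (K + (Kk : ℝ))
        rw [hFs]
        refine ⟨h3.1.trans ?_, h3.2.1.trans ?_⟩
        · push_cast
          rw [abs_mul, abs_of_pos (show (0 : ℝ) < 2 ^ j.toNat by positivity)]
          exact mul_le_mul (hwn n) (hFK _ (by omega)) (by positivity)
            (Real.rpow_nonneg (hF0 n).le _)
        · push_cast
          rw [abs_mul, abs_of_pos (show (0 : ℝ) < 2 ^ (-j).toNat by positivity),
            abs_of_nonneg (Nat.cast_nonneg _)]
          exact mul_le_mul (hwd n) (hFK _ (by omega)) (by positivity)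
            (Real.rpow_nonneg (hF0 n).le _))
      (by
        rw [hs1, Rat.num_intCast]
        intro hdv
        have h5 : (fermatNumber (m n) : ℤ) = (a n : ℤ) * (a' n : ℤ) := by
          exact_mod_cast (haa n).symm
        rw [h5, mul_comm (d n * N)] at hdv
        have han : (a n : ℤ) ≠ 0 := by
          intro h6
          have h7 : (a n : ℝ) = 0 := by exact_mod_cast h6
          linarith
        have h6 := Int.dvd_of_mul_dvd_mul_left han hdv
        have h7 : d n * N ≠ 0 := mul_ne_zero (hd0 n) hN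
        have h8 := Int.le_of_dvd (abs_pos.2 h7) ((dvd_abs _ _).2 h6)
        have h9 : (a' n : ℝ) ≤ |(d n : ℝ)| * |(N : ℝ)| := by
          rw [← abs_mul]
          have : (((a' n : ℕ) : ℤ) : ℝ) ≤ ((|d n * N| : ℤ) : ℝ) := by exact_mod_cast h8
          push_cast at this
          exact this
        have h10 := hcb d (hd n) ε hε hN2'
        have h11 : F n ^ (ε / 2) * F n ^ (ε / 2) = F n ^ ε := by
          rw [← Real.rpow_add (hF0 n)]
          congr 1
          ring
        have h12 : |(d n : ℝ)| * |(N : ℝ)| < F n ^ ε := by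
          rw [← h11]
          have h13 : 0 < F n ^ (ε / 2) := Real.rpow_pos_of_pos (hF0 n) _
          calc |(d n : ℝ)| * |(N : ℝ)| ≤ F n ^ (ε / 2) * |(N : ℝ)| :=
                mul_le_mul_of_nonneg_right h10 (abs_nonneg _)
            _ < _ := mul_lt_mul_of_pos_left g3 h13
        have h14 : F n ^ ε ≤ a' n := ha' n
        linarith)
      (a n) (Dvd.intro _ (haa n)) (by rw [hs1, Rat.num_intCast]; exact Dvd.intro_left _ rfl)
    have h5 : F n ^ ε ≤ a n := ha n
    change (a n : ℝ) < F n ^ ε at key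
    linarith

/-- **Divisors of Fermat numbers near algebraic multiples of `S`-units.** -/
theorem near (S : Finset ℕ) (α : ℝ) (hα : IsAlgebraic ℚ α) (K ε : ℝ) (hε : 0 < ε) :
    ∃ η : ℝ, 0 < η ∧ ∃ m₀ : ℕ, ∀ m ≥ m₀, ∀ (c d : ℤ) (w : ℚ), d ≠ 0 →
      |(c : ℝ)| ≤ (fermatNumber m : ℝ) ^ η → |(d : ℝ)| ≤ (fermatNumber m : ℝ) ^ η → w ≠ 0 →
      (∀ p : ℕ, p.Prime → (p ∣ w.num.natAbs ∨ p ∣ w.den) → p ∈ S) →
      |(w.num : ℝ)| ≤ (fermatNumber m : ℝ) ^ K → (w.den : ℝ) ≤ (fermatNumber m : ℝ) ^ K →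
      ∀ a a' : ℕ, a * a' = fermatNumber m → (fermatNumber m : ℝ) ^ ε ≤ a →
      (fermatNumber m : ℝ) ^ ε ≤ a' →
      (a : ℝ) ^ (Real.log a / Real.log (fermatNumber m)) * (fermatNumber m : ℝ) ^ (-ε) <
        |(a : ℝ) - α * ((c : ℝ) / d * (w : ℝ))| := by
  classical
  by_contra hcon
  push Not at hcon
  -- the primes
  set S' : Finset ℕ := insert 2 (S.filter Nat.Prime) with hS'
  set b : Fin S'.card → ℕ := fun v => (S'.equivFin.symm v : ℕ) with hb0
  have hb : ∀ v, (b v).Prime := by
    intro v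
    have h1 := (S'.equivFin.symm v).2
    rcases Finset.mem_insert.1 h1 with h2 | h2
    · rw [hb0]
      simp only []
      rw [h2]
      exact Nat.prime_two
    · exact (Finset.mem_filter.1 h2).2
  have hbi : Function.Injective b := fun x y h =>
    S'.equivFin.symm.injective (Subtype.ext h)
  have hbs : ∀ p ∈ S', ∃ v, b v = p := fun p hp =>
    ⟨S'.equivFin ⟨p, hp⟩, by rw [hb0]; simp⟩
  obtain ⟨v2, hv2⟩ := hbs 2 (Finset.mem_insert_self _ _)
  choose m hm c d w hd0 hc hd hw0 hwS hwn hwd a a' haa ha ha' hclose using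
    fun n : ℕ => hcon (1 / ((n : ℝ) + 1)) (by positivity) (n + 2)
  refine core b hb hbi v2 hv2 m hm c d hd0 w (fun n => ?_) hwn hwd hc hd a a' haa hε ha ha' hα
    hclose
  apply FG.isSU_of b hb _ (hw0 n) _ hbi
  intro p hp hpd
  apply hbs
  exact Finset.mem_insert_of_mem (Finset.mem_filter.2 ⟨hwS n p hp hpd, hp⟩)

end Pool.Agent.H556.CP
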